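import Mathlib

/-! Comparison lemmas for scalar differential inequalities. -/

set_option autoImplicit false

namespace Pool.Agent.Helper98K9.Bike

open Set

theorem pos_of_pos {y y' : ℝ → ℝ} {a b K : ℝ} (hab : a ≤ b)
    (hy : ∀ t ∈ Icc a b, HasDerivAt y (y' t) t)
    (hK : ∀ t ∈ Icc a b, -(K * |y t|) ≤ y' t) (h0 : 0 < y a) : 0 < y b := by
  set c : ℝ := y a / 2 with hc
  have hc0 : 0 < c := by positivity
  have hB : ∀ x : ℝ, HasDerivAt (fun x => -(c * Real.exp (-((K + 1) * (x - a)))))
      ((K + 1) * (c * Real.exp (-((K + 1) * (x - a))))) x := by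
    intro x
    have h1 : HasDerivAt (fun x : ℝ => -((K + 1) * (x - a))) (-((K + 1) * 1)) x :=
      (((hasDerivAt_id x).sub_const a).const_mul (K + 1)).neg
    have h2 : HasDerivAt (fun x => -(c * Real.exp (-((K + 1) * (x - a)))))
      (-(c * (Real.exp (-((K + 1) * (x - a))) * -((K + 1) * 1)))) x := ((h1.exp).const_mul c).neg
    exact h2.congr_deriv (by ring)
  have hf : ContinuousOn (fun t => - y t) (Icc a b) :=
    fun t ht => (hy t ht).continuousAt.neg.continuousWithinAt
  have hf' : ∀ t ∈ Ico a b, HasDerivWithinAt (fun t => - y t) (- y' t) (Ici t) t :=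
    fun t ht => (hy t (Ico_subset_Icc_self ht)).neg.hasDerivWithinAt
  have ha : (fun t => - y t) a ≤ (fun x => -(c * Real.exp (-((K + 1) * (x - a))))) a := by
    simp only [sub_self, mul_zero, neg_zero, Real.exp_zero, mul_one]
    rw [hc]; linarith
  have hb : ∀ t ∈ Ico a b, (fun t => - y t) t = (fun x => -(c * Real.exp (-((K + 1) * (x - a))))) t →
      - y' t < (K + 1) * (c * Real.exp (-((K + 1) * (t - a)))) := by
    intro t ht heq
    simp only at heq
    have hpos : 0 < c * Real.exp (-((K + 1) * (t - a))) := by positivity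
    have hyt : y t = c * Real.exp (-((K + 1) * (t - a))) := by linarith
    have h1 := hK t (Ico_subset_Icc_self ht)
    have habs : |y t| = c * Real.exp (-((K + 1) * (t - a))) := by
      rw [hyt]; exact abs_of_pos hpos
    rw [habs] at h1
    nlinarith
  have key := image_le_of_deriv_right_lt_deriv_boundary hf hf' ha hB hb (right_mem_Icc.2 hab)
  have : 0 < c * Real.exp (-((K + 1) * (b - a))) := by positivity
  linarith

theorem nonneg_of_nonneg {y y' : ℝ → ℝ} {a b K : ℝ} (hab : a ≤ b)
    (hy : ∀ t ∈ Icc a b, HasDerivAt y (y' t) t)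
    (hK : ∀ t ∈ Icc a b, -(K * |y t|) ≤ y' t) (h0 : 0 ≤ y a) : 0 ≤ y b := by
  by_contra hneg
  push Not at hneg
  have hmem : ∀ t ∈ Icc a b, a + b - t ∈ Icc a b := by
    intro t ht; constructor <;> linarith [ht.1, ht.2]
  have h := pos_of_pos (y := fun t => - y (a + b - t)) (y' := fun t => y' (a + b - t)) (K := K) hab
    ?_ ?_ ?_
  · simp only [add_sub_cancel_right] at h
    linarith
  · intro t ht
    have h1 : HasDerivAt (fun t : ℝ => a + b - t) (-1) t := by
      simpa using (hasDerivAt_id t).const_sub (a + b)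
    have h2 : HasDerivAt (fun t => - y (a + b - t)) (-(y' (a + b - t) * -1)) t :=
      ((hy _ (hmem t ht)).comp t h1).neg
    exact h2.congr_deriv (by ring)
  · intro t ht
    have := hK _ (hmem t ht)
    simpa [abs_neg] using this
  · simp only [add_sub_cancel_left]
    linarith

end Pool.Agent.Helper98K9.Bike
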