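import Mathlib
import Pool.Agent.Helper98K9.Bike.Cmp
import Pool.Agent.Helper383.WaveODE

/-! Rides in polar data: the velocity of the front track is `v e^{iφ}`. -/

set_option autoImplicit false

namespace Pool.Agent.Helper98K9.Bike

open Set Real

/-- polar data of a strictly convex closed curve of period `T`, positively oriented -/
structure Polar (v φ κ : ℝ → ℝ) (T C : ℝ) : Prop where
  pos : 0 < T
  Cpos : 0 < C
  vpos : ∀ t, 0 < v t
  vle : ∀ t, v t ≤ C
  vcont : Continuous v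
  dφ : ∀ t, HasDerivAt φ (κ t) t
  κ0 : ∀ t, 0 ≤ κ t
  κle : ∀ t, κ t ≤ C * v t
  mono : StrictMono φ
  per : ∀ t, φ (t + T) = φ t + 2 * π
  vper : ∀ t, v (t + T) = v t

/-- rides: solutions of the equation of the bicycle in polar data, `ε = 1/ℓ` -/
def Ride (v φ : ℝ → ℝ) (ε : ℝ) (θ : ℝ → ℝ) : Prop :=
  ∀ t, HasDerivAt θ (ε * v t * sin (φ t - θ t)) t

theorem abs_sin_sub_le (x y : ℝ) : |sin x - sin y| ≤ |x - y| := by
  have h := Real.sin_sub_sin x y
  rw [h, abs_mul, abs_mul, abs_two]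
  have h1 : |sin ((x - y) / 2)| ≤ |(x - y) / 2| := Real.abs_sin_le_abs
  have h2 : |cos ((x + y) / 2)| ≤ 1 := Real.abs_cos_le_one _
  have h3 : |(x - y) / 2| = |x - y| / 2 := by rw [abs_div, abs_two]
  have h4 : 0 ≤ |sin ((x - y) / 2)| := abs_nonneg _
  nlinarith [abs_nonneg (cos ((x + y) / 2))]

theorem abs_sin_le_sub_int (x : ℝ) (k : ℤ) : |sin x| ≤ |x - k * π| := by
  have := abs_sin_sub_le x (k * π)
  rwa [Real.sin_int_mul_pi, sub_zero] at this

variable {v φ κ : ℝ → ℝ} {T C : ℝ}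

theorem Polar.φcont (P : Polar v φ κ T C) : Continuous φ :=
  continuous_iff_continuousAt.2 fun t => (P.dφ t).continuousAt

/-- existence of rides -/
theorem exists_ride (P : Polar v φ κ T C) {ε : ℝ} (hε : 0 < ε) (x : ℝ) :
    ∃ θ : ℝ → ℝ, Ride v φ ε θ ∧ θ 0 = x := by
  have hεC : 0 ≤ ε * C := by have := P.Cpos; positivity
  have H1 : ∀ t, LipschitzWith ⟨ε * C, hεC⟩ (fun x => ε * v t * sin (φ t - x)) := by
    intro t
    refine LipschitzWith.of_dist_le_mul fun x y => ?_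
    simp only [Real.dist_eq]
    rw [← mul_sub, abs_mul]
    have h1 := abs_sin_sub_le (φ t - x) (φ t - y)
    have h2 : |φ t - x - (φ t - y)| = |x - y| := by rw [← abs_neg]; congr 1; ring
    rw [h2] at h1
    have h3 : |ε * v t| ≤ ε * C := by
      rw [abs_of_pos (mul_pos hε (P.vpos t))]
      exact mul_le_mul_of_nonneg_left (P.vle t) hε.le
    exact mul_le_mul h3 h1 (abs_nonneg _) hεC
  have H2 : ∀ x, Continuous (fun t => ε * v t * sin (φ t - x)) := by
    intro x
    exact (continuous_const.mul P.vcont).mul (Real.continuous_sin.comp (P.φcont.sub continuous_const))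
  have H3 : ∀ t x, ‖ε * v t * sin (φ t - x)‖ ≤ ((⟨ε * C, hεC⟩ : NNReal) : ℝ) := by
    intro t x
    rw [Real.norm_eq_abs, abs_mul, abs_of_pos (mul_pos hε (P.vpos t))]
    have h1 := Real.abs_sin_le_one (φ t - x)
    have h2 := P.vle t
    have h3 := P.vpos t
    show ε * v t * |sin (φ t - x)| ≤ ε * C
    have h4 : ε * v t ≤ ε * C := mul_le_mul_of_nonneg_left h2 hε.le
    calc ε * v t * |sin (φ t - x)| ≤ ε * v t * 1 := by
          apply mul_le_mul_of_nonneg_left h1 (by positivity)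
      _ ≤ ε * C := by linarith
  obtain ⟨f, hf0, hf⟩ := Pool.Agent.Helper383.WaveODE.global_ode
    (v := fun t x => ε * v t * sin (φ t - x)) H1 H2 H3 x
  exact ⟨f, fun t => hf t, hf0⟩

theorem Ride.cont {ε : ℝ} {θ : ℝ → ℝ} (h : Ride v φ ε θ) : Continuous θ :=
  continuous_iff_continuousAt.2 fun t => (h t).continuousAt

/-- the angle `φ - θ` does not cross a multiple of `π` downwards -/
theorem ride_ge (P : Polar v φ κ T C) {ε : ℝ} (hε : 0 < ε) {θ : ℝ → ℝ} (h : Ride v φ ε θ)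
    {a b : ℝ} (hab : a ≤ b) (k : ℤ) (hk : k * π ≤ φ a - θ a) : k * π ≤ φ b - θ b := by
  have := nonneg_of_nonneg (y := fun t => φ t - θ t - k * π)
    (y' := fun t => κ t - ε * v t * sin (φ t - θ t)) (K := ε * C) hab
    (fun t _ => ((P.dφ t).sub (h t)).sub_const _) ?_ (by simpa using hk)
  · simpa using this
  · intro t _
    have h1 := abs_sin_le_sub_int (φ t - θ t) k
    have h2 := P.vle t
    have h3 := P.vpos t
    have h4 := P.κ0 t
    have h5 : ε * v t * sin (φ t - θ t) ≤ ε * C * |φ t - θ t - k * π| := by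
      calc ε * v t * sin (φ t - θ t) ≤ ε * v t * |sin (φ t - θ t)| :=
            mul_le_mul_of_nonneg_left (le_abs_self _) (by positivity)
        _ ≤ ε * v t * |φ t - θ t - k * π| := mul_le_mul_of_nonneg_left h1 (by positivity)
        _ ≤ ε * C * |φ t - θ t - k * π| := by
            apply mul_le_mul_of_nonneg_right _ (abs_nonneg _)
            exact mul_le_mul_of_nonneg_left h2 hε.le
    linarith

theorem ride_gt_of_gt (P : Polar v φ κ T C) {ε : ℝ} (hε : 0 < ε) {θ : ℝ → ℝ} (h : Ride v φ ε θ)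
    {a b : ℝ} (hab : a ≤ b) (k : ℤ) (hk : k * π < φ a - θ a) : k * π < φ b - θ b := by
  have := pos_of_pos (y := fun t => φ t - θ t - k * π)
    (y' := fun t => κ t - ε * v t * sin (φ t - θ t)) (K := ε * C) hab
    (fun t _ => ((P.dφ t).sub (h t)).sub_const _) ?_ (by simpa using hk)
  · simpa using this
  · intro t _
    have h1 := abs_sin_le_sub_int (φ t - θ t) k
    have h2 := P.vle t
    have h3 := P.vpos t
    have h4 := P.κ0 t
    have h5 : ε * v t * sin (φ t - θ t) ≤ ε * C * |φ t - θ t - k * π| := by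
      calc ε * v t * sin (φ t - θ t) ≤ ε * v t * |sin (φ t - θ t)| :=
            mul_le_mul_of_nonneg_left (le_abs_self _) (by positivity)
        _ ≤ ε * v t * |φ t - θ t - k * π| := mul_le_mul_of_nonneg_left h1 (by positivity)
        _ ≤ ε * C * |φ t - θ t - k * π| := by
            apply mul_le_mul_of_nonneg_right _ (abs_nonneg _)
            exact mul_le_mul_of_nonneg_left h2 hε.le
    linarith

/-- strict version -/
theorem ride_gt (P : Polar v φ κ T C) {ε : ℝ} (hε : 0 < ε) {θ : ℝ → ℝ} (h : Ride v φ ε θ)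
    {a b : ℝ} (hab : a < b) (k : ℤ) (hk : k * π ≤ φ a - θ a) : k * π < φ b - θ b := by
  rcases lt_or_eq_of_le (ride_ge P hε h hab.le k hk) with hlt | heq
  · exact hlt
  exfalso
  -- `φ - θ = k π` on `[a, b]`
  have hall : ∀ t ∈ Icc a b, φ t - θ t = k * π := by
    intro t ht
    refine le_antisymm ?_ (ride_ge P hε h ht.1 k hk)
    by_contra hcon
    push Not at hcon
    have := ride_gt_of_gt P hε h ht.2 k hcon
    linarith
  have hθ : ∀ t ∈ Icc a b, θ t = θ a := by
    have : ∀ t ∈ Icc a b, HasDerivWithinAt θ 0 (Icc a b) t := by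
      intro t ht
      have h1 := h t
      rw [hall t ht, Real.sin_int_mul_pi, mul_zero] at h1
      exact h1.hasDerivWithinAt
    intro t ht
    apply constant_of_has_deriv_right_zero (fun t ht => (h t).continuousAt.continuousWithinAt)
      (fun t ht' => ?_) t ht
    have h1 := h t
    rw [hall t (Ico_subset_Icc_self ht'), Real.sin_int_mul_pi, mul_zero] at h1
    exact h1.hasDerivWithinAt
  have h1 := hall a (left_mem_Icc.2 hab.le)
  have h2 := hall b (right_mem_Icc.2 hab.le)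
  have h3 := hθ b (right_mem_Icc.2 hab.le)
  have h4 := P.mono hab
  linarith

/-- comparison of two rides -/
theorem ride_cmp (P : Polar v φ κ T C) {ε : ℝ} (hε : 0 < ε) {θ₁ θ₂ : ℝ → ℝ} (h₁ : Ride v φ ε θ₁)
    (h₂ : Ride v φ ε θ₂) {a b : ℝ} (hab : a ≤ b) (hk : θ₁ a ≤ θ₂ a) : θ₁ b ≤ θ₂ b := by
  have := nonneg_of_nonneg (y := fun t => θ₂ t - θ₁ t)
    (y' := fun t => ε * v t * sin (φ t - θ₂ t) - ε * v t * sin (φ t - θ₁ t)) (K := ε * C) hab
    (fun t _ => (h₂ t).sub (h₁ t)) ?_ (by simpa using hk)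
  · simpa using this
  · intro t _
    have h1 := abs_sin_sub_le (φ t - θ₂ t) (φ t - θ₁ t)
    have h1' : |φ t - θ₂ t - (φ t - θ₁ t)| = |θ₂ t - θ₁ t| := by rw [← abs_neg]; congr 1; ring
    rw [h1'] at h1
    have h2 := P.vle t
    have h3 := P.vpos t
    have h6 := neg_abs_le (sin (φ t - θ₂ t) - sin (φ t - θ₁ t))
    have h5 : -(ε * C * |θ₂ t - θ₁ t|) ≤ ε * v t * (sin (φ t - θ₂ t) - sin (φ t - θ₁ t)) := by
      have e1 : ε * v t * -|sin (φ t - θ₂ t) - sin (φ t - θ₁ t)| ≤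
        ε * v t * (sin (φ t - θ₂ t) - sin (φ t - θ₁ t)) :=
        mul_le_mul_of_nonneg_left h6 (by positivity)
      have e2 : ε * v t * |sin (φ t - θ₂ t) - sin (φ t - θ₁ t)| ≤ ε * C * |θ₂ t - θ₁ t| := by
        apply mul_le_mul _ h1 (abs_nonneg _) (by have := P.Cpos; positivity)
        exact mul_le_mul_of_nonneg_left h2 hε.le
      linarith
    linarith

theorem ride_unique_fwd (P : Polar v φ κ T C) {ε : ℝ} (hε : 0 < ε) {θ₁ θ₂ : ℝ → ℝ}
    (h₁ : Ride v φ ε θ₁) (h₂ : Ride v φ ε θ₂) {a b : ℝ} (hab : a ≤ b) (hk : θ₁ a = θ₂ a) :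
    θ₁ b = θ₂ b :=
  le_antisymm (ride_cmp P hε h₁ h₂ hab hk.le) (ride_cmp P hε h₂ h₁ hab hk.ge)

/-- the shifted ride -/
theorem Ride.shift (P : Polar v φ κ T C) {ε : ℝ} {θ : ℝ → ℝ} (h : Ride v φ ε θ) (m : ℤ) :
    Ride v φ ε (fun t => θ (t + T) - 2 * π * m) := by
  intro t
  have h1 : HasDerivAt (fun t : ℝ => t + T) 1 t := (hasDerivAt_id t).add_const T
  have h2 : HasDerivAt (fun t => θ (t + T) - 2 * π * m)
      (ε * v (t + T) * sin (φ (t + T) - θ (t + T)) * 1) t := ((h (t + T)).comp t h1).sub_const _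
  refine h2.congr_deriv ?_
  rw [P.vper, P.per, mul_one]
  congr 1
  have : φ t - (θ (t + T) - 2 * π * m) = φ t + 2 * π - θ (t + T) + ((m - 1 : ℤ) : ℝ) * (2 * π) := by
    push_cast; ring
  rw [this, Real.sin_add_int_mul_two_pi]

theorem Ride.addInt {ε : ℝ} {θ : ℝ → ℝ} (h : Ride v φ ε θ) (m : ℤ) :
    Ride v φ ε (fun t => θ t + m * (2 * π)) := by
  intro t
  have h2 : HasDerivAt (fun t => θ t + m * (2 * π)) (ε * v t * sin (φ t - θ t)) t :=
    (h t).add_const _
  refine h2.congr_deriv ?_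
  congr 1
  rw [← sub_sub, Real.sin_sub_int_mul_two_pi]

/-- if a ride changes by `2 π m` in one period then it does so in each period (forwards) -/
theorem ride_periodic (P : Polar v φ κ T C) {ε : ℝ} (hε : 0 < ε) {θ : ℝ → ℝ} (h : Ride v φ ε θ)
    (m : ℤ) (h0 : θ T = θ 0 + 2 * π * m) {t : ℝ} (ht : 0 ≤ t) : θ (t + T) = θ t + 2 * π * m := by
  have := ride_unique_fwd P hε (h.shift P m) h ht (by simp [h0])
  linarith

end Pool.Agent.Helper98K9.Bike
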