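import Mathlib
import Pool.Agent.Helper98K9.Bike.Ride

/-! The monodromy matrix in polar data. -/

set_option autoImplicit false

namespace Pool.Agent.Helper98K9.Bike

open Set Real

/-- The unit vector `(cos (x/2), sin (x/2))`: it spans the line which corresponds to the point
`x` of the circle of directions under the usual identification with the projective line. -/
noncomputable def dirVec (x : ℝ) : Fin 2 → ℝ := ![cos (x / 2), sin (x / 2)]

variable {v φ κ : ℝ → ℝ} {T C : ℝ}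

theorem lin_of_ride (P : Polar v φ κ T C) {ε : ℝ} {θ : ℝ → ℝ} (h : Ride v φ ε θ) :
    ∃ r : ℝ → ℝ, (∀ t, 0 < r t) ∧ r 0 = 1 ∧
      (∀ t, HasDerivAt (fun t => r t * cos (θ t / 2))
        (ε / 2 * v t * cos (φ t) * (r t * cos (θ t / 2)) +
          ε / 2 * v t * sin (φ t) * (r t * sin (θ t / 2))) t) ∧
      (∀ t, HasDerivAt (fun t => r t * sin (θ t / 2))
        (ε / 2 * v t * sin (φ t) * (r t * cos (θ t / 2)) -
          ε / 2 * v t * cos (φ t) * (r t * sin (θ t / 2))) t) := by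
  have hc : Continuous (fun t => ε / 2 * v t * cos (φ t - θ t)) :=
    (continuous_const.mul P.vcont).mul (Real.continuous_cos.comp (P.φcont.sub h.cont))
  set g : ℝ → ℝ := fun t => ∫ s in (0:ℝ)..t, ε / 2 * v s * cos (φ s - θ s) with hg
  have hg' : ∀ t, HasDerivAt g (ε / 2 * v t * cos (φ t - θ t)) t := fun t =>
    (hc.integral_hasStrictDerivAt 0 t).hasDerivAt
  have hr : ∀ t, HasDerivAt (fun t => exp (g t)) (exp (g t) * (ε / 2 * v t * cos (φ t - θ t))) t :=
    fun t => (hg' t).exp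
  have hθ2 : ∀ t, HasDerivAt (fun t => θ t / 2) (ε * v t * sin (φ t - θ t) / 2) t :=
    fun t => (h t).div_const 2
  refine ⟨fun t => exp (g t), fun t => exp_pos _, by simp [hg], fun t => ?_, fun t => ?_⟩
  · have h1 : HasDerivAt (fun t => exp (g t) * cos (θ t / 2))
      (exp (g t) * (ε / 2 * v t * cos (φ t - θ t)) * cos (θ t / 2) +
        exp (g t) * (-sin (θ t / 2) * (ε * v t * sin (φ t - θ t) / 2))) t := (hr t).mul (hθ2 t).cos
    refine h1.congr_deriv ?_
    have e : cos (φ t - θ t) * cos (θ t / 2) - sin (φ t - θ t) * sin (θ t / 2) =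
        cos (φ t) * cos (θ t / 2) + sin (φ t) * sin (θ t / 2) := by
      rw [← cos_add, ← cos_sub]; congr 1; ring
    linear_combination (exp (g t) * (ε / 2) * v t) * e
  · have h1 : HasDerivAt (fun t => exp (g t) * sin (θ t / 2))
      (exp (g t) * (ε / 2 * v t * cos (φ t - θ t)) * sin (θ t / 2) +
        exp (g t) * (cos (θ t / 2) * (ε * v t * sin (φ t - θ t) / 2))) t := (hr t).mul (hθ2 t).sin
    refine h1.congr_deriv ?_
    have e : cos (φ t - θ t) * sin (θ t / 2) + sin (φ t - θ t) * cos (θ t / 2) =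
        sin (φ t) * cos (θ t / 2) - cos (φ t) * sin (θ t / 2) := by
      rw [add_comm, ← sin_add, ← sin_sub]; congr 1; ring
    linear_combination (exp (g t) * (ε / 2) * v t) * e

theorem lin_zero (P : Polar v φ κ T C) {ε : ℝ} (hε : 0 < ε) {p q : ℝ → ℝ}
    (hp : ∀ t, HasDerivAt p (ε / 2 * v t * cos (φ t) * p t + ε / 2 * v t * sin (φ t) * q t) t)
    (hq : ∀ t, HasDerivAt q (ε / 2 * v t * sin (φ t) * p t - ε / 2 * v t * cos (φ t) * q t) t)
    (hp0 : p 0 = 0) (hq0 : q 0 = 0) {t : ℝ} (ht : 0 ≤ t) : p t = 0 ∧ q t = 0 := by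
  have key := nonneg_of_nonneg (y := fun t => -(p t * p t + q t * q t))
    (y' := fun t => -((ε / 2 * v t * cos (φ t) * p t + ε / 2 * v t * sin (φ t) * q t) * p t +
      p t * (ε / 2 * v t * cos (φ t) * p t + ε / 2 * v t * sin (φ t) * q t) +
      ((ε / 2 * v t * sin (φ t) * p t - ε / 2 * v t * cos (φ t) * q t) * q t +
      q t * (ε / 2 * v t * sin (φ t) * p t - ε / 2 * v t * cos (φ t) * q t))))
    (K := 2 * ε * C) ht (fun s _ => ?_) (fun s _ => ?_) (by simp [hp0, hq0])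
  · have h1 := mul_self_nonneg (p t)
    have h2 := mul_self_nonneg (q t)
    constructor
    · exact mul_self_eq_zero.1 (by linarith)
    · exact mul_self_eq_zero.1 (by linarith)
  · exact (((hp s).mul (hp s)).add ((hq s).mul (hq s))).neg
  · have hn : 0 ≤ p s * p s + q s * q s := add_nonneg (mul_self_nonneg _) (mul_self_nonneg _)
    rw [abs_neg, abs_of_nonneg hn]
    have hv := P.vle s
    have hv0 := P.vpos s
    have hC := P.Cpos
    have hc1 := Real.abs_cos_le_one (φ s)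
    have hs1 := Real.abs_sin_le_one (φ s)
    have hcc := abs_le.1 hc1
    have hss := abs_le.1 hs1
    have e1 : cos (φ s) * (p s * p s - q s * q s) ≤ p s * p s + q s * q s := by
      nlinarith [mul_self_nonneg (p s), mul_self_nonneg (q s)]
    have e2 : sin (φ s) * (2 * (p s * q s)) ≤ p s * p s + q s * q s := by
      have h3 : |2 * (p s * q s)| ≤ p s * p s + q s * q s := by
        rw [abs_le]; constructor <;> nlinarith [mul_self_nonneg (p s + q s), mul_self_nonneg (p s - q s)]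
      calc sin (φ s) * (2 * (p s * q s)) ≤ |sin (φ s) * (2 * (p s * q s))| := le_abs_self _
        _ = |sin (φ s)| * |2 * (p s * q s)| := abs_mul _ _
        _ ≤ 1 * (p s * p s + q s * q s) := mul_le_mul hs1 h3 (abs_nonneg _) zero_le_one
        _ = _ := one_mul _
    have e3 : ε * v s * (cos (φ s) * (p s * p s - q s * q s) + sin (φ s) * (2 * (p s * q s))) ≤
        ε * v s * (2 * (p s * p s + q s * q s)) :=
      mul_le_mul_of_nonneg_left (by linarith) (by positivity)
    have e4 : ε * v s * (2 * (p s * p s + q s * q s)) ≤ ε * C * (2 * (p s * p s + q s * q s)) :=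
      mul_le_mul_of_nonneg_right (mul_le_mul_of_nonneg_left hv hε.le) (by positivity)
    have e5 : -((ε / 2 * v s * cos (φ s) * p s + ε / 2 * v s * sin (φ s) * q s) * p s +
      p s * (ε / 2 * v s * cos (φ s) * p s + ε / 2 * v s * sin (φ s) * q s) +
      ((ε / 2 * v s * sin (φ s) * p s - ε / 2 * v s * cos (φ s) * q s) * q s +
      q s * (ε / 2 * v s * sin (φ s) * p s - ε / 2 * v s * cos (φ s) * q s))) =
      -(ε * v s * (cos (φ s) * (p s * p s - q s * q s) + sin (φ s) * (2 * (p s * q s)))) := by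
      ring
    rw [e5]
    linarith

/-- The monodromy matrix. -/
theorem exists_matrix (P : Polar v φ κ T C) {ε : ℝ} (hε : 0 < ε) :
    ∃ M : Matrix (Fin 2) (Fin 2) ℝ, M.det = 1 ∧ ∀ θ, Ride v φ ε θ →
      ∃ r : ℝ, 0 < r ∧ M.mulVec (dirVec (θ 0)) = r • dirVec (θ T) := by
  obtain ⟨θ₀, h₀, i₀⟩ := exists_ride P hε 0
  obtain ⟨θ₁, h₁, i₁⟩ := exists_ride P hε π
  obtain ⟨r₀, -, r00, dc₀, ds₀⟩ := lin_of_ride P h₀
  obtain ⟨r₁, -, r10, dc₁, ds₁⟩ := lin_of_ride P h₁
  set p₀ : ℝ → ℝ := fun t => r₀ t * cos (θ₀ t / 2) with hp₀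
  set q₀ : ℝ → ℝ := fun t => r₀ t * sin (θ₀ t / 2) with hq₀
  set p₁ : ℝ → ℝ := fun t => r₁ t * cos (θ₁ t / 2) with hp₁
  set q₁ : ℝ → ℝ := fun t => r₁ t * sin (θ₁ t / 2) with hq₁
  have ep₀ : p₀ 0 = 1 := by simp [hp₀, r00, i₀]
  have eq₀ : q₀ 0 = 0 := by simp [hq₀, r00, i₀]
  have ep₁ : p₁ 0 = 0 := by simp [hp₁, r10, i₁]
  have eq₁ : q₁ 0 = 1 := by simp [hq₁, r10, i₁]
  refine ⟨!![p₀ T, p₁ T; q₀ T, q₁ T], ?_, fun θ h => ?_⟩
  · rw [Matrix.det_fin_two_of]
    have hW : ∀ t, HasDerivAt (fun t => p₀ t * q₁ t - p₁ t * q₀ t) 0 t := by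
      intro t
      have := ((dc₀ t).mul (ds₁ t)).sub ((dc₁ t).mul (ds₀ t))
      refine HasDerivAt.congr_deriv this ?_
      simp only [hp₀, hq₀, hp₁, hq₁]
      ring
    have hconst := is_const_of_deriv_eq_zero (f := fun t => p₀ t * q₁ t - p₁ t * q₀ t)
      (fun t => (hW t).differentiableAt) (fun t => (hW t).deriv) T 0
    simp only [ep₀, eq₀, ep₁, eq₁] at hconst
    linarith
  · obtain ⟨r, rpos, r0, dc, ds⟩ := lin_of_ride P h
    refine ⟨r T, rpos T, ?_⟩
    set c := cos (θ 0 / 2) with hc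
    set s := sin (θ 0 / 2) with hs
    have hz := lin_zero P hε (p := fun t => r t * cos (θ t / 2) - (c * p₀ t + s * p₁ t))
      (q := fun t => r t * sin (θ t / 2) - (c * q₀ t + s * q₁ t)) (fun t => ?_) (fun t => ?_)
      (by simp [ep₀, ep₁, r0, hc]) (by simp [eq₀, eq₁, r0, hs]) P.pos.le
    · obtain ⟨hz1, hz2⟩ := hz
      ext i
      fin_cases i
      · simp [dirVec, Matrix.mulVec, dotProduct, Fin.sum_univ_two]
        linarith
      · simp [dirVec, Matrix.mulVec, dotProduct, Fin.sum_univ_two]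
        linarith
    · refine HasDerivAt.congr_deriv
        ((dc t).sub (((dc₀ t).const_mul c).add ((dc₁ t).const_mul s))) ?_
      simp only [hp₀, hq₀, hp₁, hq₁]
      ring
    · refine HasDerivAt.congr_deriv
        ((ds t).sub (((ds₀ t).const_mul c).add ((ds₁ t).const_mul s))) ?_
      simp only [hp₀, hq₀, hp₁, hq₁]
      ring

/-- `det (w, M w)` for `w = dirVec x`. -/
theorem quad_eq {M : Matrix (Fin 2) (Fin 2) ℝ} {x y r : ℝ}
    (h : M.mulVec (dirVec x) = r • dirVec y) :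
    cos (x / 2) * (M 1 0 * cos (x / 2) + M 1 1 * sin (x / 2)) -
      sin (x / 2) * (M 0 0 * cos (x / 2) + M 0 1 * sin (x / 2)) = r * sin ((y - x) / 2) := by
  have h0 := congrFun h 0
  have h1 := congrFun h 1
  simp [dirVec, Matrix.mulVec, dotProduct, Fin.sum_univ_two] at h0 h1
  rw [h0, h1, sub_div, sin_sub]
  ring

/-- if the quadratic form takes both signs then the matrix is hyperbolic -/
theorem hyp_of_signs {M : Matrix (Fin 2) (Fin 2) ℝ} (hdet : M.det = 1) {a b c d : ℝ}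
    (h1 : 0 < a * (M 1 0 * a + M 1 1 * b) - b * (M 0 0 * a + M 0 1 * b))
    (h2 : c * (M 1 0 * c + M 1 1 * d) - d * (M 0 0 * c + M 0 1 * d) < 0) : 2 < |M.trace| := by
  rw [Matrix.det_fin_two] at hdet
  rw [Matrix.trace_fin_two]
  by_contra hcon
  push Not at hcon
  have hsq : (M 0 0 + M 1 1) ^ 2 ≤ 4 := by
    have := sq_le_sq' (abs_le.1 hcon).1 (abs_le.1 hcon).2
    linarith
  have hdisc : (M 1 1 - M 0 0) ^ 2 + 4 * (M 1 0 * M 0 1) ≤ 0 := by nlinarith
  -- 4 A Q = (2 A x + B y)^2 - disc y^2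
  set A := M 1 0
  set B := M 1 1 - M 0 0 with hB
  set D := - M 0 1 with hD
  have q1 : 0 < A * a ^ 2 + B * a * b + D * b ^ 2 := by rw [hB, hD]; linarith
  have q2 : A * c ^ 2 + B * c * d + D * d ^ 2 < 0 := by rw [hB, hD]; linarith
  have hd : B ^ 2 - 4 * A * D ≤ 0 := by rw [hB, hD]; linarith
  have e1 : 4 * A * (A * a ^ 2 + B * a * b + D * b ^ 2) =
    (2 * A * a + B * b) ^ 2 - (B ^ 2 - 4 * A * D) * b ^ 2 := by ring
  have e2 : 4 * A * (A * c ^ 2 + B * c * d + D * d ^ 2) =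
    (2 * A * c + B * d) ^ 2 - (B ^ 2 - 4 * A * D) * d ^ 2 := by ring
  have p1 : 0 ≤ 4 * A * (A * a ^ 2 + B * a * b + D * b ^ 2) := by
    rw [e1]; nlinarith [sq_nonneg (2 * A * a + B * b), mul_nonneg (neg_nonneg.2 hd) (sq_nonneg b)]
  have p2 : 0 ≤ 4 * A * (A * c ^ 2 + B * c * d + D * d ^ 2) := by
    rw [e2]; nlinarith [sq_nonneg (2 * A * c + B * d), mul_nonneg (neg_nonneg.2 hd) (sq_nonneg d)]
  have hA1 : 0 ≤ A := by
    by_contra hA; push Not at hA
    nlinarith
  have hA2 : A ≤ 0 := by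
    by_contra hA; push Not at hA
    nlinarith
  have hA : A = 0 := le_antisymm hA2 hA1
  have hB0 : B = 0 := by
    rw [hA] at hd
    nlinarith [sq_nonneg B]
  rw [hA, hB0] at q1 q2
  rcases le_total D 0 with hD0 | hD0
  · have := mul_nonneg (neg_nonneg.2 hD0) (sq_nonneg b)
    linarith
  · have := mul_nonneg hD0 (sq_nonneg d)
    linarith

/-- if the quadratic form has no zero then the matrix is elliptic -/
theorem ell_of_ne {M : Matrix (Fin 2) (Fin 2) ℝ} (hdet : M.det = 1)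
    (h : ∀ x : ℝ, cos (x / 2) * (M 1 0 * cos (x / 2) + M 1 1 * sin (x / 2)) -
      sin (x / 2) * (M 0 0 * cos (x / 2) + M 0 1 * sin (x / 2)) ≠ 0) : |M.trace| < 2 := by
  rw [Matrix.det_fin_two] at hdet
  rw [Matrix.trace_fin_two]
  by_contra hcon
  push Not at hcon
  have hsq : 4 ≤ (M 0 0 + M 1 1) ^ 2 := by
    have := sq_le_sq' (by linarith [abs_nonneg (M 0 0 + M 1 1)] : -|M 0 0 + M 1 1| ≤ 2) hcon
    rw [sq_abs] at this
    linarith
  set A := M 1 0 with hAdef
  set B := M 1 1 - M 0 0 with hB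
  set D := - M 0 1 with hD
  have hd : 0 ≤ B ^ 2 - 4 * A * D := by rw [hB, hD]; nlinarith
  -- a nonzero real vector on which the form vanishes
  have hform : ∀ x : ℝ, A * cos (x / 2) ^ 2 + B * cos (x / 2) * sin (x / 2) + D * sin (x / 2) ^ 2 ≠ 0 := by
    intro x hx
    apply h x
    rw [← hx, hB, hD]; ring
  -- every nonzero vector is a multiple of some dirVec
  have hvec : ∀ a b : ℝ, (a ≠ 0 ∨ b ≠ 0) → A * a ^ 2 + B * a * b + D * b ^ 2 ≠ 0 := by
    intro a b hab hz
    set z : ℂ := ⟨a, b⟩ with hzdef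
    have hz0 : z ≠ 0 := by
      intro h0
      have h1 : z.re = 0 := by rw [h0]; rfl
      have h2 : z.im = 0 := by rw [h0]; rfl
      rcases hab with h | h
      · exact h h1
      · exact h h2
    have hn : 0 < ‖z‖ := norm_pos_iff.2 hz0
    have ha : a = ‖z‖ * cos (Complex.arg z) := by rw [Complex.norm_mul_cos_arg]
    have hb : b = ‖z‖ * sin (Complex.arg z) := by rw [Complex.norm_mul_sin_arg]
    apply hform (2 * Complex.arg z)
    rw [mul_div_cancel_left₀ _ (two_ne_zero)]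
    have : ‖z‖ ^ 2 * (A * cos z.arg ^ 2 + B * cos z.arg * sin z.arg + D * sin z.arg ^ 2) = 0 := by
      rw [← hz]
      conv_rhs => rw [ha, hb]
      ring
    rcases mul_eq_zero.1 this with h1 | h1
    · exact absurd h1 (by positivity)
    · exact h1
  by_cases hA : A = 0
  · exact hvec 1 0 (Or.inl one_ne_zero) (by rw [hA]; ring)
  · set S := Real.sqrt (B ^ 2 - 4 * A * D) with hS
    have hS2 : S ^ 2 = B ^ 2 - 4 * A * D := Real.sq_sqrt hd
    apply hvec (-B + S) (2 * A) (Or.inr (by simpa using hA))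
    linear_combination A * hS2

end Pool.Agent.Helper98K9.Bike
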