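import Mathlib
import Pool.Agent.Helper98K9.Bike.Mono

/-! Rides which change by a multiple of `2π` in one period. -/

set_option autoImplicit false

namespace Pool.Agent.Helper98K9.Bike

open Set Real

variable {v φ κ : ℝ → ℝ} {T C : ℝ}

theorem le_of_hasDerivAt {f f' : ℝ → ℝ} {a b : ℝ} (hab : a ≤ b)
    (hf : ∀ t ∈ Icc a b, HasDerivAt f (f' t) t) (h : ∀ t ∈ Ioo a b, 0 ≤ f' t) : f a ≤ f b := by
  have := monotoneOn_of_deriv_nonneg (convex_Icc a b)
    (fun t ht => (hf t ht).continuousAt.continuousWithinAt)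
    (fun t ht => by
      rw [interior_Icc] at ht
      exact (hf t (Ioo_subset_Icc_self ht)).differentiableAt.differentiableWithinAt)
    (fun t ht => by
      rw [interior_Icc] at ht
      rw [(hf t (Ioo_subset_Icc_self ht)).deriv]
      exact h t ht)
  exact this (left_mem_Icc.2 hab) (right_mem_Icc.2 hab) hab

theorem lt_of_hasDerivAt {f f' : ℝ → ℝ} {a b : ℝ} (hab : a < b)
    (hf : ∀ t ∈ Icc a b, HasDerivAt f (f' t) t) (h : ∀ t ∈ Ioo a b, 0 < f' t) : f a < f b := by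
  have := strictMonoOn_of_deriv_pos (convex_Icc a b)
    (fun t ht => (hf t ht).continuousAt.continuousWithinAt)
    (fun t ht => by
      rw [interior_Icc] at ht
      rw [(hf t (Ioo_subset_Icc_self ht)).deriv]
      exact h t ht)
  exact this (left_mem_Icc.2 hab.le) (right_mem_Icc.2 hab.le) hab

theorem sin_pos_even {x : ℝ} (m : ℤ) (h1 : ((2 * m : ℤ) : ℝ) * π < x)
    (h2 : x < ((2 * m + 1 : ℤ) : ℝ) * π) : 0 < sin x := by
  rw [← Real.sin_sub_int_mul_two_pi x m]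
  push_cast at h1 h2
  apply Real.sin_pos_of_pos_of_lt_pi <;> linarith

theorem sin_neg_odd {x : ℝ} (m : ℤ) (h1 : ((2 * m + 1 : ℤ) : ℝ) * π < x)
    (h2 : x < ((2 * m + 2 : ℤ) : ℝ) * π) : sin x < 0 := by
  rw [← Real.sin_sub_int_mul_two_pi x m]
  push_cast at h1 h2
  have : 0 < sin (x - m * (2 * π) - π) := by
    apply Real.sin_pos_of_pos_of_lt_pi <;> linarith
  rw [Real.sin_sub_pi] at this
  linarith

/-- the angle stays in an open strip until the next multiple of `π` is reached -/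
theorem strip (P : Polar v φ κ T C) {ε : ℝ} (hε : 0 < ε) {θ : ℝ → ℝ} (h : Ride v φ ε θ)
    {a b : ℝ} (k : ℤ) (ha : k * π ≤ φ a - θ a) (hb : φ b - θ b ≤ ((k + 1 : ℤ) : ℝ) * π)
    {t : ℝ} (ht : t ∈ Ioo a b) : k * π < φ t - θ t ∧ φ t - θ t < ((k + 1 : ℤ) : ℝ) * π := by
  refine ⟨ride_gt P hε h ht.1 k ha, ?_⟩
  by_contra hcon
  push Not at hcon
  have := ride_gt P hε h ht.2 (k + 1) hcon
  linarith

/-- `θ` increases while the angle is in an even strip -/
theorem incr (P : Polar v φ κ T C) {ε : ℝ} (hε : 0 < ε) {θ : ℝ → ℝ} (h : Ride v φ ε θ)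
    {a b : ℝ} (hab : a < b) (m : ℤ) (ha : ((2 * m : ℤ) : ℝ) * π ≤ φ a - θ a)
    (hb : φ b - θ b ≤ ((2 * m + 1 : ℤ) : ℝ) * π) : θ a < θ b := by
  refine lt_of_hasDerivAt hab (fun t _ => h t) fun t ht => ?_
  obtain ⟨h1, h2⟩ := strip P hε h (2 * m) ha hb ht
  exact mul_pos (mul_pos hε (P.vpos t)) (sin_pos_even m h1 h2)

/-- `θ` decreases while the angle is in an odd strip -/
theorem decr (P : Polar v φ κ T C) {ε : ℝ} (hε : 0 < ε) {θ : ℝ → ℝ} (h : Ride v φ ε θ)
    {a b : ℝ} (hab : a < b) (m : ℤ) (ha : ((2 * m + 1 : ℤ) : ℝ) * π ≤ φ a - θ a)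
    (hb : φ b - θ b ≤ ((2 * m + 2 : ℤ) : ℝ) * π) : θ b < θ a := by
  have := lt_of_hasDerivAt (f := fun t => - θ t) hab (fun t _ => (h t).neg) fun t ht => ?_
  · simpa using this
  · have hb' : φ b - θ b ≤ ((2 * m + 1 + 1 : ℤ) : ℝ) * π := by
      push_cast at hb ⊢; linarith
    obtain ⟨h1, h2⟩ := strip P hε h (2 * m + 1) ha hb' ht
    have h2' : φ t - θ t < ((2 * m + 2 : ℤ) : ℝ) * π := by push_cast at h2 ⊢; linarith
    have h3 := sin_neg_odd m h1 h2'
    have h4 := mul_pos hε (P.vpos t)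
    nlinarith

/-- `θ` gains at least `2 π` in one period -/
def PBig (v φ : ℝ → ℝ) (T ε : ℝ) : Prop := ∃ θ, Ride v φ ε θ ∧ θ 0 + 2 * π ≤ θ T

theorem pbig_of_large (P : Polar v φ κ T C) {ε : ℝ} (hε : C ≤ ε) : PBig v φ T ε := by
  have hε0 : 0 < ε := lt_of_lt_of_le P.Cpos hε
  obtain ⟨θ, h, h0⟩ := exists_ride P hε0 (φ 0 - π / 2)
  refine ⟨θ, h, ?_⟩
  have := nonneg_of_nonneg (y := fun t => θ t - φ t + π / 2)
    (y' := fun t => ε * v t * sin (φ t - θ t) - κ t) (K := ε * C) P.pos.le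
    (fun t _ => ((h t).sub (P.dφ t)).add_const _) (fun t _ => ?_) (by simp [h0])
  · have hp := P.per 0
    rw [zero_add] at hp
    linarith
  · have h1 : 1 - |θ t - φ t + π / 2| ≤ sin (φ t - θ t) := by
      have h2 := abs_sin_sub_le (π / 2) (φ t - θ t)
      rw [Real.sin_pi_div_two] at h2
      have h3 : π / 2 - (φ t - θ t) = θ t - φ t + π / 2 := by ring
      rw [h3] at h2
      linarith [le_abs_self (1 - sin (φ t - θ t))]
    have h2 := P.vle t
    have h3 := P.vpos t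
    have h4 := P.κle t
    have h5 : ε * v t * (1 - |θ t - φ t + π / 2|) ≤ ε * v t * sin (φ t - θ t) :=
      mul_le_mul_of_nonneg_left h1 (by positivity)
    have h6 : C * v t ≤ ε * v t := mul_le_mul_of_nonneg_right hε h3.le
    have h7 : ε * v t * |θ t - φ t + π / 2| ≤ ε * C * |θ t - φ t + π / 2| :=
      mul_le_mul_of_nonneg_right (mul_le_mul_of_nonneg_left h2 hε0.le) (abs_nonneg _)
    linarith

theorem not_pbig_small (P : Polar v φ κ T C) {ε : ℝ} (hε : 0 < ε) (hs : ε * C * T < 2 * π) :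
    ¬ PBig v φ T ε := by
  rintro ⟨θ, h, hθ⟩
  have := le_of_hasDerivAt (f := fun t => ε * C * t - θ t)
    (f' := fun t => ε * C * 1 - ε * v t * sin (φ t - θ t)) P.pos.le
    (fun t _ => ((hasDerivAt_id t).const_mul (ε * C)).sub (h t)) (fun t _ => ?_)
  · simp only [mul_zero, zero_sub] at this
    linarith
  · have h1 := Real.sin_le_one (φ t - θ t)
    have h2 := P.vle t
    have h3 := P.vpos t
    have h4 : ε * v t * sin (φ t - θ t) ≤ ε * v t * 1 :=
      mul_le_mul_of_nonneg_left h1 (by positivity)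
    have h5 : ε * v t ≤ ε * C := mul_le_mul_of_nonneg_left h2 hε.le
    linarith

/-- a ride which gains at least `2 π` stays in an even strip -/
theorem pbig_strip (P : Polar v φ κ T C) {ε : ℝ} (hε : 0 < ε) (hb : PBig v φ T ε) :
    ∃ θ, Ride v φ ε θ ∧ θ 0 + 2 * π ≤ θ T ∧
      ∀ t ∈ Icc 0 T, 0 < φ t - θ t ∧ φ t - θ t < π := by
  obtain ⟨θ, h, hθ⟩ := hb
  have hp := P.per 0
  rw [zero_add] at hp
  set k : ℤ := ⌊(φ 0 - θ 0) / π⌋ with hk
  have hk1 : k * π ≤ φ 0 - θ 0 := by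
    have := Int.floor_le ((φ 0 - θ 0) / π)
    rwa [le_div_iff₀ Real.pi_pos] at this
  have hk2 : φ 0 - θ 0 < ((k + 1 : ℤ) : ℝ) * π := by
    have := Int.lt_floor_add_one ((φ 0 - θ 0) / π)
    rw [div_lt_iff₀ Real.pi_pos] at this
    push_cast
    exact this
  have hT : φ T - θ T ≤ φ 0 - θ 0 := by linarith
  have hT1 := ride_gt P hε h P.pos k hk1
  have hin : ∀ t ∈ Icc 0 T, k * π < φ t - θ t ∧ φ t - θ t < ((k + 1 : ℤ) : ℝ) * π := by
    intro t ht
    refine ⟨ride_gt_of_gt P hε h ht.1 k (lt_of_lt_of_le hT1 hT), ?_⟩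
    by_contra hcon
    push Not at hcon
    have := ride_ge P hε h ht.2 (k + 1) hcon
    linarith
  rcases Int.even_or_odd' k with ⟨m, hm | hm⟩
  · refine ⟨fun t => θ t + m * (2 * π), h.addInt m, by simp only; linarith, fun t ht => ?_⟩
    obtain ⟨h1, h2⟩ := hin t ht
    rw [hm] at h1 h2
    push_cast at h1 h2
    constructor <;> linarith
  · exfalso
    have hlt := decr P hε h P.pos m (by rw [hm] at hk1; exact hk1)
      (by
        have := (hin T (right_mem_Icc.2 P.pos.le)).2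
        rw [hm] at this
        push_cast at this ⊢
        linarith)
    have := Real.pi_pos
    linarith

/-- hyperbolicity for every larger `ε` -/
theorem hyperbolic_of_pbig (P : Polar v φ κ T C) {ε₀ ε : ℝ} (hε₀ : 0 < ε₀) (hε : ε₀ < ε)
    (hb : PBig v φ T ε₀) {M : Matrix (Fin 2) (Fin 2) ℝ} (hdet : M.det = 1)
    (hM : ∀ θ, Ride v φ ε θ → ∃ r : ℝ, 0 < r ∧ M.mulVec (dirVec (θ 0)) = r • dirVec (θ T)) :
    2 < |M.trace| := by
  have hε' : 0 < ε := hε₀.trans hε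
  have hπ := Real.pi_pos
  obtain ⟨θ₀, h₀, hθ₀, hin⟩ := pbig_strip P hε₀ hb
  have hp := P.per 0
  rw [zero_add] at hp
  obtain ⟨hi1, hi2⟩ := hin 0 (left_mem_Icc.2 P.pos.le)
  -- comparison of rides for `ε` with `θ₀`
  have hcmp : ∀ θ, Ride v φ ε θ → ∀ a b : ℝ, 0 ≤ a → a ≤ b → b ≤ T → θ₀ a ≤ θ a → θ₀ b ≤ θ b := by
    intro θ h a b ha hab hbT hle
    have := nonneg_of_nonneg (y := fun t => θ t - θ₀ t)
      (y' := fun t => ε * v t * sin (φ t - θ t) - ε₀ * v t * sin (φ t - θ₀ t)) (K := ε * C) hab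
      (fun t _ => (h t).sub (h₀ t)) (fun t ht => ?_) (by simpa using hle)
    · simpa using this
    · have hs : 0 < sin (φ t - θ₀ t) := by
        obtain ⟨h1, h2⟩ := hin t ⟨ha.trans ht.1, ht.2.trans hbT⟩
        exact Real.sin_pos_of_pos_of_lt_pi h1 h2
      have h1 := abs_sin_sub_le (φ t - θ t) (φ t - θ₀ t)
      have h1' : |φ t - θ t - (φ t - θ₀ t)| = |θ t - θ₀ t| := by rw [← abs_neg]; congr 1; ring
      rw [h1'] at h1
      have h2 := P.vle t
      have h3 := P.vpos t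
      have h6 := neg_abs_le (sin (φ t - θ t) - sin (φ t - θ₀ t))
      have e1 : ε * v t * -|sin (φ t - θ t) - sin (φ t - θ₀ t)| ≤
        ε * v t * (sin (φ t - θ t) - sin (φ t - θ₀ t)) :=
        mul_le_mul_of_nonneg_left h6 (by positivity)
      have e2 : ε * v t * |sin (φ t - θ t) - sin (φ t - θ₀ t)| ≤ ε * C * |θ t - θ₀ t| := by
        apply mul_le_mul _ h1 (abs_nonneg _) (by have := P.Cpos; positivity)
        exact mul_le_mul_of_nonneg_left h2 hε'.le
      have e3 : ε₀ * v t * sin (φ t - θ₀ t) ≤ ε * v t * sin (φ t - θ₀ t) :=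
        mul_le_mul_of_nonneg_right (mul_le_mul_of_nonneg_right hε.le h3.le) hs.le
      linarith
  -- the ride which starts at `θ₀ 0` is above `θ₀` at time `T`
  obtain ⟨θ₁, h₁, i₁⟩ := exists_ride P hε' (θ₀ 0)
  have hT₁ : θ₀ T < θ₁ T := by
    rcases lt_or_eq_of_le (hcmp θ₁ h₁ 0 T le_rfl P.pos.le le_rfl i₁.ge) with hlt | heq
    · exact hlt
    exfalso
    -- then `θ₁ = θ₀` on `[0, T]`
    have hall : ∀ t ∈ Icc 0 T, θ₁ t = θ₀ t := by
      intro t ht
      refine le_antisymm ?_ (hcmp θ₁ h₁ 0 t le_rfl ht.1 ht.2 i₁.ge)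
      by_contra hcon
      push Not at hcon
      have := pos_of_pos (y := fun t => θ₁ t - θ₀ t)
        (y' := fun t => ε * v t * sin (φ t - θ₁ t) - ε₀ * v t * sin (φ t - θ₀ t)) (K := ε * C) ht.2
        (fun t _ => (h₁ t).sub (h₀ t)) (fun s hs' => ?_) (by simpa using hcon)
      · linarith
      · have hs : 0 < sin (φ s - θ₀ s) := by
          obtain ⟨h1, h2⟩ := hin s ⟨ht.1.trans hs'.1, hs'.2⟩
          exact Real.sin_pos_of_pos_of_lt_pi h1 h2
        have h1 := abs_sin_sub_le (φ s - θ₁ s) (φ s - θ₀ s)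
        have h1' : |φ s - θ₁ s - (φ s - θ₀ s)| = |θ₁ s - θ₀ s| := by
          rw [← abs_neg]; congr 1; ring
        rw [h1'] at h1
        have h2 := P.vle s
        have h3 := P.vpos s
        have h6 := neg_abs_le (sin (φ s - θ₁ s) - sin (φ s - θ₀ s))
        have e1 : ε * v s * -|sin (φ s - θ₁ s) - sin (φ s - θ₀ s)| ≤
          ε * v s * (sin (φ s - θ₁ s) - sin (φ s - θ₀ s)) :=
          mul_le_mul_of_nonneg_left h6 (by positivity)
        have e2 : ε * v s * |sin (φ s - θ₁ s) - sin (φ s - θ₀ s)| ≤ ε * C * |θ₁ s - θ₀ s| := by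
          apply mul_le_mul _ h1 (abs_nonneg _) (by have := P.Cpos; positivity)
          exact mul_le_mul_of_nonneg_left h2 hε'.le
        have e3 : ε₀ * v s * sin (φ s - θ₀ s) ≤ ε * v s * sin (φ s - θ₀ s) :=
          mul_le_mul_of_nonneg_right (mul_le_mul_of_nonneg_right hε.le h3.le) hs.le
        linarith
    have hlt := lt_of_hasDerivAt (f := fun t => θ₁ t - θ₀ t)
      (f' := fun t => ε * v t * sin (φ t - θ₁ t) - ε₀ * v t * sin (φ t - θ₀ t)) P.pos
      (fun t _ => (h₁ t).sub (h₀ t)) (fun t ht => ?_)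
    · rw [i₁, ← heq] at hlt
      linarith
    · have ht' := Ioo_subset_Icc_self ht
      rw [hall t ht']
      obtain ⟨h1, h2⟩ := hin t ht'
      have hs := Real.sin_pos_of_pos_of_lt_pi h1 h2
      have h3 := P.vpos t
      have : ε * v t * sin (φ t - θ₀ t) - ε₀ * v t * sin (φ t - θ₀ t) =
        (ε - ε₀) * v t * sin (φ t - θ₀ t) := by ring
      rw [this]
      have : 0 < ε - ε₀ := by linarith
      positivity
  -- the ride which starts at `φ 0`
  obtain ⟨θ₂, h₂, i₂⟩ := exists_ride P hε' (φ 0)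
  have hT₂ : θ₀ T ≤ θ₂ T := hcmp θ₂ h₂ 0 T le_rfl P.pos.le le_rfl (by rw [i₂]; linarith)
  have hu₁ : 0 < φ T - θ₁ T := by
    have := ride_gt P hε' h₁ P.pos 0 (by rw [i₁]; push_cast; linarith)
    simpa using this
  have hu₂ : 0 < φ T - θ₂ T := by
    have := ride_gt P hε' h₂ P.pos 0 (by rw [i₂]; simp)
    simpa using this
  obtain ⟨r₁, hr₁, e₁⟩ := hM θ₁ h₁
  obtain ⟨r₂, hr₂, e₂⟩ := hM θ₂ h₂
  have q₁ := quad_eq e₁
  have q₂ := quad_eq e₂
  refine hyp_of_signs hdet (a := cos (θ₂ 0 / 2)) (b := sin (θ₂ 0 / 2)) (c := cos (θ₁ 0 / 2))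
    (d := sin (θ₁ 0 / 2)) ?_ ?_
  · rw [q₂, i₂]
    refine mul_pos hr₂ (Real.sin_pos_of_pos_of_lt_pi ?_ ?_) <;> linarith
  · rw [q₁, i₁]
    refine mul_neg_of_pos_of_neg hr₁ ?_
    have : 0 < sin ((θ₁ T - θ₀ 0) / 2 - π) := by
      apply Real.sin_pos_of_pos_of_lt_pi <;> linarith
    rw [Real.sin_sub_pi] at this
    linarith

end Pool.Agent.Helper98K9.Bike
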