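import Mathlib
import Pool.Agent.Helper98K9.Bike.Wind

/-! Rides with winding number zero or negative do not exist when the front track is closed. -/

set_option autoImplicit false

namespace Pool.Agent.Helper98K9.Bike

open Set Real

variable {v φ κ : ℝ → ℝ} {T C : ℝ}

theorem per_nat (P : Polar v φ κ T C) (n : ℕ) (t : ℝ) : φ (t + n * T) = φ t + 2 * π * n := by
  induction n with
  | zero => simp
  | succ n ih =>
    have : t + ((n + 1 : ℕ) : ℝ) * T = t + n * T + T := by push_cast; ring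
    rw [this, P.per, ih]
    push_cast; ring

theorem phi_surj (P : Polar v φ κ T C) : Function.Surjective φ := by
  intro c
  have hπ := Real.pi_pos
  obtain ⟨n, hn⟩ := exists_nat_ge ((|c - φ 0|) / (2 * π))
  rw [div_le_iff₀ (by positivity)] at hn
  have h1 := per_nat P n 0
  have h2 := per_nat P n (-(n * T))
  rw [neg_add_cancel] at h2
  rw [zero_add] at h1
  have := mem_range_of_exists_le_of_exists_ge P.φcont ⟨-(n * T), ?_⟩ ⟨n * T, ?_⟩ (c := c)
  · exact this
  · have := neg_abs_le (c - φ 0); nlinarith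
  · have := le_abs_self (c - φ 0); nlinarith

/-- the special pair of times -/
theorem exists_pair (P : Polar v φ κ T C) {ε : ℝ} (hε : 0 < ε) {θ : ℝ → ℝ} (h : Ride v φ ε θ)
    (h0 : θ T = θ 0) : ∃ s r : ℝ, 0 ≤ s ∧ s < r ∧ r < s + T ∧ φ r = φ s + π ∧ θ r = θ s := by
  have hπ := Real.pi_pos
  have hper : ∀ t, 0 ≤ t → θ (t + T) = θ t := by
    intro t ht
    have := ride_periodic P hε h 0 (by simp [h0]) ht
    simpa using this
  set e := P.mono.orderIsoOfSurjective φ (phi_surj P) with he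
  have hφe : ∀ p, φ (e.symm p) = p := fun p => e.apply_symm_apply p
  have heφ : ∀ t, e.symm (φ t) = t := fun t => e.symm_apply_apply t
  have hcont : Continuous e.symm := e.symm.continuous
  set g : ℝ → ℝ := fun p => θ (e.symm p) - θ (e.symm (p + π)) with hg
  have hgc : Continuous g :=
    (h.cont.comp hcont).sub (h.cont.comp (hcont.comp (continuous_id.add continuous_const)))
  have hanti : g (φ 0 + π) = - g (φ 0) := by
    simp only [hg]
    have : φ 0 + π + π = φ (0 + T) := by rw [P.per]; ring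
    rw [this, heφ, heφ, hper 0 le_rfl]
    ring
  have hex : ∃ p ∈ Icc (φ 0) (φ 0 + π), g p = 0 := by
    rcases le_total (g (φ 0)) 0 with hle | hle
    · have := intermediate_value_Icc (f := g) (a := φ 0) (b := φ 0 + π) (by linarith)
        hgc.continuousOn
      obtain ⟨p, hp, hp0⟩ := this ⟨hle, by rw [hanti]; linarith⟩
      exact ⟨p, hp, hp0⟩
    · have := intermediate_value_Icc' (f := g) (a := φ 0) (b := φ 0 + π) (by linarith)
        hgc.continuousOn
      obtain ⟨p, hp, hp0⟩ := this ⟨by rw [hanti]; linarith, hle⟩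
      exact ⟨p, hp, hp0⟩
  obtain ⟨p, hp, hp0⟩ := hex
  refine ⟨e.symm p, e.symm (p + π), ?_, ?_, ?_, ?_, ?_⟩
  · rw [← heφ 0]; exact e.symm.monotone hp.1
  · exact e.symm.strictMono (by linarith)
  · have : e.symm p + T = e.symm (p + 2 * π) := by
      rw [← heφ (e.symm p + T), P.per, hφe]
    rw [this]
    exact e.symm.strictMono (by linarith)
  · rw [hφe, hφe]
  · simp only [hg] at hp0; linarith

/-- the primitive of `sin (x - a) * cot (p - x)` -/
noncomputable def Psi (p a x : ℝ) : ℝ :=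
  -(sin (p - a) * (log (sin ((p - x) / 2)) - log (cos ((p - x) / 2)) + cos (p - x)) -
    cos (p - a) * sin (p - x))

theorem hasDerivAt_Psi {p a x : ℝ} (h1 : 0 < p - x) (h2 : p - x < π) :
    HasDerivAt (Psi p a) (sin (x - a) * cos (p - x) / sin (p - x)) x := by
  have hs : 0 < sin ((p - x) / 2) := Real.sin_pos_of_pos_of_lt_pi (by linarith) (by linarith)
  have hc : 0 < cos ((p - x) / 2) := Real.cos_pos_of_mem_Ioo ⟨by linarith, by linarith⟩
  have hS : 0 < sin (p - x) := Real.sin_pos_of_pos_of_lt_pi h1 h2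
  have hz : HasDerivAt (fun x : ℝ => p - x) (-1) x := by
    simpa using (hasDerivAt_id x).const_sub p
  have hz2 : HasDerivAt (fun x : ℝ => (p - x) / 2) (-1 / 2) x := hz.div_const 2
  have d1 : HasDerivAt (fun x => log (sin ((p - x) / 2)))
      (cos ((p - x) / 2) * (-1 / 2) / sin ((p - x) / 2)) x := hz2.sin.log hs.ne'
  have d2 : HasDerivAt (fun x => log (cos ((p - x) / 2)))
      (-sin ((p - x) / 2) * (-1 / 2) / cos ((p - x) / 2)) x := hz2.cos.log hc.ne'
  have d3 : HasDerivAt (fun x => cos (p - x)) (-sin (p - x) * -1) x := hz.cos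
  have d4 : HasDerivAt (fun x => sin (p - x)) (cos (p - x) * -1) x := hz.sin
  have D : HasDerivAt (Psi p a) (-(sin (p - a) * (cos ((p - x) / 2) * (-1 / 2) / sin ((p - x) / 2) -
      -sin ((p - x) / 2) * (-1 / 2) / cos ((p - x) / 2) + -sin (p - x) * -1) -
      cos (p - a) * (cos (p - x) * -1))) x :=
    ((((d1.sub d2).add d3).const_mul _).sub (d4.const_mul _)).neg
  refine D.congr_deriv ?_
  have e1 : sin (p - x) = 2 * sin ((p - x) / 2) * cos ((p - x) / 2) := by
    rw [← Real.sin_two_mul]; congr 1; ring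
  have e2 : cos ((p - x) / 2) * (-1 / 2) / sin ((p - x) / 2) -
      -sin ((p - x) / 2) * (-1 / 2) / cos ((p - x) / 2) = -1 / sin (p - x) := by
    rw [e1]
    have := Real.sin_sq_add_cos_sq ((p - x) / 2)
    field_simp
    linear_combination -this
  have e3 : sin (x - a) = sin (p - a) * cos (p - x) - cos (p - a) * sin (p - x) := by
    rw [← Real.sin_sub]; congr 1; ring
  rw [e2, e3]
  have := Real.sin_sq_add_cos_sq (p - x)
  field_simp
  linear_combination (-sin (p - a)) * this

/-- there is no ride which returns to its initial direction without turning -/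
theorem no_zero (P : Polar v φ κ T C) {ε : ℝ} (hε : 0 < ε) {X Y : ℝ → ℝ}
    (hX : ∀ t, HasDerivAt X (v t * cos (φ t)) t) (hY : ∀ t, HasDerivAt Y (v t * sin (φ t)) t)
    (hXT : ∀ t, X (t + T) = X t) (hYT : ∀ t, Y (t + T) = Y t)
    {θ : ℝ → ℝ} (h : Ride v φ ε θ) (h0 : θ T = θ 0) : False := by
  have hπ := Real.pi_pos
  have hper : ∀ t, 0 ≤ t → θ (t + T) = θ t := by
    intro t ht
    have := ride_periodic P hε h 0 (by simp [h0]) ht
    simpa using this
  -- a pair in an even strip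
  obtain ⟨s, r, m, hs0, hsr, hrT, hφ, hθ, hm1, hm2⟩ : ∃ (s r : ℝ) (m : ℤ), 0 ≤ s ∧ s < r ∧
      r < s + T ∧ φ r = φ s + π ∧ θ r = θ s ∧ ((2 * m : ℤ) : ℝ) * π < φ s - θ s ∧
      φ s - θ s < ((2 * m + 1 : ℤ) : ℝ) * π := by
    obtain ⟨s, r, hs0, hsr, hrT, hφ, hθ⟩ := exists_pair P hε h h0
    set k : ℤ := ⌊(φ s - θ s) / π⌋ with hk
    have hk1 : k * π ≤ φ s - θ s := by
      have := Int.floor_le ((φ s - θ s) / π)
      rwa [le_div_iff₀ Real.pi_pos] at this
    have hk2 : φ s - θ s < ((k + 1 : ℤ) : ℝ) * π := by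
      have := Int.lt_floor_add_one ((φ s - θ s) / π)
      rw [div_lt_iff₀ Real.pi_pos] at this
      push_cast
      exact this
    have hk1' : k * π < φ s - θ s := by
      rcases lt_or_eq_of_le hk1 with hlt | heq
      · exact hlt
      exfalso
      rcases Int.even_or_odd' k with ⟨m, hm | hm⟩
      · have := incr P hε h hsr m (by rw [← hm]; exact heq.le)
          (by rw [hφ, hθ]; push_cast; rw [hm] at heq; push_cast at heq; linarith)
        linarith
      · have := decr P hε h hsr m (by rw [← hm]; exact heq.le)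
          (by rw [hφ, hθ]; push_cast; rw [hm] at heq; push_cast at heq; linarith)
        linarith
    rcases Int.even_or_odd' k with ⟨m, hm | hm⟩
    · exact ⟨s, r, m, hs0, hsr, hrT, hφ, hθ, by rw [← hm]; exact hk1', by rw [← hm]; exact hk2⟩
    · refine ⟨r, s + T, m + 1, by linarith, hrT, by linarith, ?_, ?_, ?_, ?_⟩
      · rw [P.per, hφ]; ring
      · rw [hper s hs0, hθ]
      · rw [hφ, hθ]; rw [hm] at hk1'; push_cast at hk1' ⊢; linarith
      · rw [hφ, hθ]; rw [hm] at hk2; push_cast at hk2 ⊢; linarith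
  set p := φ s with hp
  set a := θ s with ha
  set b := s + T with hb
  have hθb : θ b = a := hper s hs0
  have hφb : φ b = p + 2 * π := P.per s
  -- the two intermediate times
  have huc : Continuous (fun t => φ t - θ t) := P.φcont.sub h.cont
  obtain ⟨t1, ht1, e1⟩ : ∃ t1 ∈ Ioo s r, φ t1 - θ t1 = ((2 * m + 1 : ℤ) : ℝ) * π := by
    have := intermediate_value_Ioo hsr.le huc.continuousOn (f := fun t => φ t - θ t)
    obtain ⟨t, ht, h'⟩ := this (show ((2 * m + 1 : ℤ) : ℝ) * π ∈ Ioo _ _ from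
      ⟨hm2, by
        show _ < φ r - θ r
        rw [hφ, hθ]; push_cast at hm1 ⊢; linarith⟩)
    exact ⟨t, ht, h'⟩
  obtain ⟨t2, ht2, e2⟩ : ∃ t2 ∈ Ioo r b, φ t2 - θ t2 = ((2 * m + 2 : ℤ) : ℝ) * π := by
    have := intermediate_value_Ioo hrT.le huc.continuousOn (f := fun t => φ t - θ t)
    obtain ⟨t, ht, h'⟩ := this (show ((2 * m + 2 : ℤ) : ℝ) * π ∈ Ioo _ _ from
      ⟨by
        show φ r - θ r < _
        rw [hφ, hθ]; push_cast at hm2 ⊢; linarith, by
        show _ < φ b - θ b
        rw [hφb, hθb]; push_cast at hm1 ⊢; linarith⟩)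
    exact ⟨t, ht, h'⟩
  have hub : φ b - θ b ≤ ((2 * (m + 1) + 1 : ℤ) : ℝ) * π := by
    rw [hφb, hθb]; push_cast at hm2 ⊢; linarith
  -- monotonicity
  have inc1 : ∀ x y, s ≤ x → x < y → y ≤ t1 → θ x < θ y := by
    intro x y hx hxy hy
    refine incr P hε h hxy m ?_ ?_
    · exact ride_ge P hε h hx (2 * m) hm1.le
    · rcases lt_or_eq_of_le hy with hlt | heq
      · exact (strip P hε h (2 * m) hm1.le (by rw [e1]) ⟨lt_of_le_of_lt hx hxy, hlt⟩).2.le
      · rw [heq, e1]
  have dec2 : ∀ x y, t1 ≤ x → x < y → y ≤ t2 → θ y < θ x := by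
    intro x y hx hxy hy
    refine decr P hε h hxy m ?_ ?_
    · exact ride_ge P hε h hx (2 * m + 1) e1.ge
    · rcases lt_or_eq_of_le hy with hlt | heq
      · have := (strip P hε h (2 * m + 1) e1.ge (by rw [e2]; push_cast; linarith)
          ⟨lt_of_le_of_lt hx hxy, hlt⟩).2.le
        push_cast at this ⊢; linarith
      · rw [heq, e2]
  have inc3 : ∀ x y, t2 ≤ x → x < y → y ≤ b → θ x < θ y := by
    intro x y hx hxy hy
    refine incr P hε h hxy (m + 1) ?_ ?_
    · have := ride_ge P hε h hx (2 * m + 2) e2.ge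
      push_cast at this ⊢; linarith
    · rcases lt_or_eq_of_le hy with hlt | heq
      · exact (strip P hε h (2 * (m + 1)) (by have := e2.ge; push_cast at this ⊢; linarith) hub
          ⟨lt_of_le_of_lt hx hxy, hlt⟩).2.le
      · rw [heq]; exact hub
  -- bounds for `θ` modulo `2 π m`
  have hmax : θ t1 < p - m * (2 * π) := by
    have := P.mono ht1.2
    rw [hφ] at this
    push_cast at e1; linarith
  have hmin : p - m * (2 * π) - π < θ t2 := by
    have := P.mono ht2.1
    rw [hφ] at this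
    push_cast at e2; linarith
  have hup : ∀ t ∈ Icc s b, θ t ≤ θ t1 := by
    intro t ht
    rcases lt_trichotomy t t1 with h1 | h1 | h1
    · exact (inc1 t t1 ht.1 h1 le_rfl).le
    · rw [h1]
    · rcases le_total t t2 with h2 | h2
      · exact (dec2 t1 t le_rfl h1 h2).le
      · have h3 : θ t ≤ θ b := by
          rcases lt_or_eq_of_le ht.2 with h4 | h4
          · exact (inc3 t b h2 h4 le_rfl).le
          · rw [h4]
        have h4 := inc1 s t1 le_rfl ht1.1 le_rfl
        rw [hθb] at h3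
        linarith
  have hdown : ∀ t ∈ Icc s b, θ t2 ≤ θ t := by
    intro t ht
    rcases lt_trichotomy t t2 with h1 | h1 | h1
    · rcases le_total t1 t with h2 | h2
      · exact (dec2 t t2 h2 h1 le_rfl).le
      · have h3 : θ s ≤ θ t := by
          rcases lt_or_eq_of_le ht.1 with h4 | h4
          · exact (inc1 s t le_rfl h4 h2).le
          · rw [h4]
        have h4 := inc3 t2 b le_rfl ht2.2 le_rfl
        rw [hθb] at h4
        linarith
    · rw [h1]
    · exact (inc3 t2 t le_rfl h1 ht.2).le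
  have hpos : ∀ t ∈ Ioo s r, a < θ t := by
    intro t ht
    rcases le_total t t1 with h1 | h1
    · exact inc1 s t le_rfl ht.1 h1
    · rw [← hθ]
      exact dec2 t r h1 ht.2 ht2.1.le
  have hneg : ∀ t ∈ Ioo r b, θ t < a := by
    intro t ht
    rcases le_total t t2 with h1 | h1
    · rw [← hθ]
      exact dec2 r t ht1.2.le ht.1 h1
    · rw [← hθb]
      exact inc3 t b h1 ht.2 le_rfl
  set q := p - m * (2 * π) with hq
  have hr1 : ∀ t ∈ Icc s b, 0 < q - θ t ∧ q - θ t < π := by
    intro t ht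
    have h1 := hup t ht
    have h2 := hdown t ht
    constructor <;> linarith
  -- the function `G`
  set G : ℝ → ℝ := fun t => Psi q a (θ t) / ε -
    (cos a * (Y t - sin (θ t) / ε) - sin a * (X t - cos (θ t) / ε)) with hG
  set G' : ℝ → ℝ := fun t => v t * (sin (θ t - a) * sin (φ t - p)) / sin (q - θ t) with hG'
  have hdG : ∀ t ∈ Icc s b, HasDerivAt G (G' t) t := by
    intro t ht
    obtain ⟨h1, h2⟩ := hr1 t ht
    have hS : 0 < sin (q - θ t) := Real.sin_pos_of_pos_of_lt_pi h1 h2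
    have d1 : HasDerivAt (fun t => Psi q a (θ t))
        (sin (θ t - a) * cos (q - θ t) / sin (q - θ t) * (ε * v t * sin (φ t - θ t))) t :=
      (hasDerivAt_Psi h1 h2).comp t (h t)
    have d2 : HasDerivAt (fun t => sin (θ t)) (cos (θ t) * (ε * v t * sin (φ t - θ t))) t :=
      (h t).sin
    have d3 : HasDerivAt (fun t => cos (θ t)) (-sin (θ t) * (ε * v t * sin (φ t - θ t))) t :=
      (h t).cos
    have D : HasDerivAt G (sin (θ t - a) * cos (q - θ t) / sin (q - θ t) *
        (ε * v t * sin (φ t - θ t)) / ε -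
        (cos a * (v t * sin (φ t) - cos (θ t) * (ε * v t * sin (φ t - θ t)) / ε) -
        sin a * (v t * cos (φ t) - -sin (θ t) * (ε * v t * sin (φ t - θ t)) / ε))) t :=
      (d1.div_const ε).sub ((((hY t).sub (d2.div_const ε)).const_mul _).sub
        (((hX t).sub (d3.div_const ε)).const_mul _))
    refine D.congr_deriv ?_
    simp only [hG']
    -- `v sin φ - cos θ v sin (φ - θ) = v cos (φ - θ) sin θ`, and so on
    have f1 : sin (φ t) = sin (φ t - θ t) * cos (θ t) + cos (φ t - θ t) * sin (θ t) := by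
      rw [← Real.sin_add]; congr 1; ring
    have f2 : cos (φ t) = cos (φ t - θ t) * cos (θ t) - sin (φ t - θ t) * sin (θ t) := by
      rw [← Real.cos_add]; congr 1; ring
    have f3 : sin (θ t - a) = sin (θ t) * cos a - cos (θ t) * sin a := Real.sin_sub _ _
    have f4 : sin (φ t - p) = sin (φ t - θ t) * cos (q - θ t) - cos (φ t - θ t) * sin (q - θ t) := by
      rw [← Real.sin_sub, ← Real.sin_add_int_mul_two_pi (φ t - p) m]
      congr 1
      rw [hq]; ring
    have g1 : cos a * (v t * sin (φ t) - cos (θ t) * (ε * v t * sin (φ t - θ t)) / ε) -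
        sin a * (v t * cos (φ t) - -sin (θ t) * (ε * v t * sin (φ t - θ t)) / ε) =
        v t * cos (φ t - θ t) * sin (θ t - a) := by
      rw [f3]
      conv_lhs => rw [f1, f2]
      field_simp
      ring
    rw [g1, f4]
    field_simp
  have hlt1 : G s < G r := by
    refine lt_of_hasDerivAt hsr (fun t ht => hdG t ⟨ht.1, ht.2.trans hrT.le⟩) fun t ht => ?_
    obtain ⟨h1, h2⟩ := hr1 t ⟨ht.1.le, ht.2.le.trans hrT.le⟩
    obtain ⟨h3, h4⟩ := hr1 s ⟨le_rfl, by linarith [P.pos]⟩
    have hS : 0 < sin (q - θ t) := Real.sin_pos_of_pos_of_lt_pi h1 h2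
    have h5 := hpos t ht
    have h6 : 0 < sin (θ t - a) := Real.sin_pos_of_pos_of_lt_pi (by linarith) (by linarith)
    have h7 := P.mono ht.1
    have h8 := P.mono ht.2
    rw [hφ] at h8
    have h9 : 0 < sin (φ t - p) := Real.sin_pos_of_pos_of_lt_pi (by linarith) (by linarith)
    have := P.vpos t
    simp only [hG']
    positivity
  have hle2 : G r ≤ G b := by
    refine le_of_hasDerivAt hrT.le (fun t ht => hdG t ⟨hsr.le.trans ht.1, ht.2⟩) fun t ht => ?_
    obtain ⟨h1, h2⟩ := hr1 t ⟨hsr.le.trans ht.1.le, ht.2.le⟩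
    obtain ⟨h3, h4⟩ := hr1 s ⟨le_rfl, by linarith [P.pos]⟩
    have hS : 0 < sin (q - θ t) := Real.sin_pos_of_pos_of_lt_pi h1 h2
    have h5 := hneg t ht
    have h6 : 0 < sin (a - θ t) := Real.sin_pos_of_pos_of_lt_pi (by linarith) (by linarith)
    have h6' : sin (θ t - a) < 0 := by rw [← neg_sub, Real.sin_neg]; linarith
    have h7 := P.mono ht.1
    have h8 := P.mono ht.2
    rw [hφ] at h7
    rw [hφb] at h8
    have h9 : 0 < sin (φ t - p - π) := Real.sin_pos_of_pos_of_lt_pi (by linarith) (by linarith)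
    rw [Real.sin_sub_pi] at h9
    have := P.vpos t
    simp only [hG']
    have h10 : 0 < sin (θ t - a) * sin (φ t - p) := mul_pos_of_neg_of_neg h6' (by linarith)
    positivity
  have heq : G b = G s := by
    simp only [hG]
    rw [hθb, hb, hXT, hYT]
  linarith

/-- there is no ride with negative winding -/
theorem no_neg (P : Polar v φ κ T C) {ε : ℝ} (hε : 0 < ε)
    {θ : ℝ → ℝ} (h : Ride v φ ε θ) {j : ℤ} (hj : j ≤ -1) (h0 : θ T = θ 0 + 2 * π * j) : False := by
  have hπ := Real.pi_pos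
  have hj' : (j : ℝ) ≤ -1 := by exact_mod_cast hj
  have hper : ∀ t, 0 ≤ t → φ (t + T) - θ (t + T) = φ t - θ t + 2 * π * (1 - j) := by
    intro t ht
    rw [ride_periodic P hε h j h0 ht, P.per]; ring
  have huc : Continuous (fun t => φ t - θ t) := P.φcont.sub h.cont
  -- an even level reached after time zero
  obtain ⟨m, hm1, hm2⟩ : ∃ m : ℤ, φ 0 - θ 0 ≤ ((2 * m : ℤ) : ℝ) * π ∧
      ((2 * m : ℤ) : ℝ) * π ≤ φ 0 - θ 0 + 2 * π := by
    refine ⟨⌈(φ 0 - θ 0) / (2 * π)⌉, ?_, ?_⟩
    · have := Int.le_ceil ((φ 0 - θ 0) / (2 * π))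
      rw [div_le_iff₀ (by positivity)] at this
      push_cast; linarith
    · have := (Int.ceil_lt_add_one ((φ 0 - θ 0) / (2 * π))).le
      have h2 := mul_le_mul_of_nonneg_right this (show 0 ≤ 2 * π by positivity)
      rw [add_mul, div_mul_cancel₀ _ (by positivity)] at h2
      push_cast; linarith
  have hT0 := hper 0 le_rfl
  rw [zero_add] at hT0
  have hjj : 4 * π ≤ 2 * π * (1 - j) := by nlinarith
  obtain ⟨ta, hta, ea⟩ : ∃ ta ∈ Icc 0 T, φ ta - θ ta = ((2 * m : ℤ) : ℝ) * π := by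
    obtain ⟨t, ht, h'⟩ := intermediate_value_Icc P.pos.le huc.continuousOn
      (f := fun t => φ t - θ t) (show ((2 * m : ℤ) : ℝ) * π ∈ Icc _ _ from
        ⟨hm1, by show _ ≤ φ T - θ T; rw [hT0]; linarith⟩)
    exact ⟨t, ht, h'⟩
  have hTa := hper ta hta.1
  have haT : ta ≤ ta + T := by linarith [P.pos]
  obtain ⟨tb, htb, eb⟩ : ∃ tb ∈ Icc ta (ta + T), φ tb - θ tb = ((2 * m + 1 : ℤ) : ℝ) * π := by
    obtain ⟨t, ht, h'⟩ := intermediate_value_Icc haT huc.continuousOn
      (f := fun t => φ t - θ t) (show ((2 * m + 1 : ℤ) : ℝ) * π ∈ Icc _ _ from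
        ⟨by show φ ta - θ ta ≤ _; rw [ea]; push_cast; linarith,
         by show _ ≤ φ (ta + T) - θ (ta + T); rw [hTa, ea]; push_cast; linarith⟩)
    exact ⟨t, ht, h'⟩
  obtain ⟨tc, htc, ec⟩ : ∃ tc ∈ Icc tb (ta + T), φ tc - θ tc = ((2 * m + 2 : ℤ) : ℝ) * π := by
    obtain ⟨t, ht, h'⟩ := intermediate_value_Icc htb.2 huc.continuousOn
      (f := fun t => φ t - θ t) (show ((2 * m + 2 : ℤ) : ℝ) * π ∈ Icc _ _ from
        ⟨by show φ tb - θ tb ≤ _; rw [eb]; push_cast; linarith,
         by show _ ≤ φ (ta + T) - θ (ta + T); rw [hTa, ea]; push_cast; linarith⟩)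
    exact ⟨t, ht, h'⟩
  obtain ⟨td, htd, ed⟩ : ∃ td ∈ Icc tc (ta + T), φ td - θ td = ((2 * m + 3 : ℤ) : ℝ) * π := by
    obtain ⟨t, ht, h'⟩ := intermediate_value_Icc htc.2 huc.continuousOn
      (f := fun t => φ t - θ t) (show ((2 * m + 3 : ℤ) : ℝ) * π ∈ Icc _ _ from
        ⟨by show φ tc - θ tc ≤ _; rw [ec]; push_cast; linarith,
         by show _ ≤ φ (ta + T) - θ (ta + T); rw [hTa, ea]; push_cast; linarith⟩)
    exact ⟨t, ht, h'⟩
  have hab : ta < tb := by
    rcases lt_or_eq_of_le htb.1 with h1 | h1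
    · exact h1
    · exfalso; rw [← h1, ea] at eb; push_cast at eb; linarith
  have hcd : tc < td := by
    rcases lt_or_eq_of_le htd.1 with h1 | h1
    · exact h1
    · exfalso; rw [← h1, ec] at ed; push_cast at ed; linarith
  have i1 := incr P hε h hab m ea.ge eb.le
  have i2 := incr P hε h hcd (m + 1) (by rw [ec]; push_cast; linarith)
    (by rw [ed]; push_cast; linarith)
  have i3 := P.mono.monotone htc.1
  have i4 := P.mono.monotone htd.2
  rw [P.per] at i4
  push_cast at ea eb ec ed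
  linarith

theorem elliptic_of_not_pbig (P : Polar v φ κ T C) {ε : ℝ} (hε : 0 < ε) {X Y : ℝ → ℝ}
    (hX : ∀ t, HasDerivAt X (v t * cos (φ t)) t) (hY : ∀ t, HasDerivAt Y (v t * sin (φ t)) t)
    (hXT : ∀ t, X (t + T) = X t) (hYT : ∀ t, Y (t + T) = Y t)
    (hb : ¬ PBig v φ T ε) {M : Matrix (Fin 2) (Fin 2) ℝ} (hdet : M.det = 1)
    (hM : ∀ θ, Ride v φ ε θ → ∃ r : ℝ, 0 < r ∧ M.mulVec (dirVec (θ 0)) = r • dirVec (θ T)) :
    |M.trace| < 2 := by
  have hπ := Real.pi_pos
  refine ell_of_ne hdet fun x hx => ?_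
  obtain ⟨θ, h, hx0⟩ := exists_ride P hε x
  obtain ⟨r, hr, e⟩ := hM θ h
  have q := quad_eq e
  rw [hx0, hx] at q
  have hsin : sin ((θ T - x) / 2) = 0 := by
    rcases mul_eq_zero.1 q.symm with h1 | h1
    · exact absurd h1 hr.ne'
    · exact h1
  obtain ⟨n, hn⟩ := Real.sin_eq_zero_iff.1 hsin
  have hT : θ T = θ 0 + 2 * π * n := by rw [hx0]; linarith
  rcases lt_trichotomy n 0 with h1 | h1 | h1
  · exact no_neg P hε h (by omega) hT
  · exact no_zero P hε hX hY hXT hYT h (by rw [hT, h1]; simp)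
  · apply hb
    refine ⟨θ, h, ?_⟩
    have : (1 : ℝ) ≤ n := by exact_mod_cast h1
    rw [hT]
    nlinarith

end Pool.Agent.Helper98K9.Bike
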