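import Mathlib
import Pool.Agent.Helper98K9.Bike.Close

/-!
Convex curves: from a simple strictly convex closed curve to its polar data (speed `v`, tangent
angle `φ`, rotation speed `κ`).
-/

open Set Real

namespace Pool.Agent.Helper98K9.Bike

/-- the cross product of `Γ' t` with `Γ s - Γ t` -/
noncomputable def crossD (Γ : ℝ → ℂ) (t s : ℝ) : ℝ :=
  (deriv Γ t).re * ((Γ s).im - (Γ t).im) - (deriv Γ t).im * ((Γ s).re - (Γ t).re)

theorem crossD_ne {Γ : ℝ → ℂ} {K : Set ℂ} (hd : ∀ t, deriv Γ t ≠ 0) (hdiff : Differentiable ℝ Γ)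
    (hK : IsClosed K) (hc : StrictConvex ℝ K) (hi : (interior K).Nonempty)
    (hf : frontier K = range Γ) {t s : ℝ} (hne : Γ s ≠ Γ t) : crossD Γ t s ≠ 0 := by
  have hp : Γ t ∉ interior K := by
    have : Γ t ∈ frontier K := hf ▸ mem_range_self t
    exact fun h => this.2 h
  obtain ⟨f, hf'⟩ := geometric_hahn_banach_open_point (hc.convex.interior) isOpen_interior hp
  have hmem : ∀ r, Γ r ∈ K := fun r => hK.frontier_subset (hf ▸ mem_range_self r)
  have hle : ∀ a ∈ K, f a ≤ f (Γ t) := by
    intro a ha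
    have : a ∈ closure (interior K) := by
      rw [hc.convex.closure_interior_eq_closure_of_nonempty_interior hi]
      exact subset_closure ha
    exact closure_minimal (fun x hx => (hf' x hx).le)
      (isClosed_le f.continuous continuous_const) this
  have hder : f (deriv Γ t) = 0 := by
    have h1 : HasDerivAt (fun r => f (Γ r)) (f (deriv Γ t)) t :=
      f.hasFDerivAt.comp_hasDerivAt t (hdiff t).hasDerivAt
    have h2 : IsLocalMax (fun r => f (Γ r)) t :=
      Filter.Eventually.of_forall (fun r => hle _ (hmem r))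
    exact h2.hasDerivAt_eq_zero h1
  have hmid : f ((1 / 2 : ℝ) • Γ s + (1 / 2 : ℝ) • Γ t) < f (Γ t) :=
    hf' _ (hc (hmem s) (hmem t) hne (by norm_num) (by norm_num) (by norm_num))
  rw [map_add, map_smul, map_smul, smul_eq_mul, smul_eq_mul] at hmid
  intro h0
  -- `Γ s - Γ t` is a multiple of `Γ' t`
  have hsq : 0 < (deriv Γ t).re ^ 2 + (deriv Γ t).im ^ 2 := by
    have h1 := Complex.normSq_pos.2 (hd t)
    rw [Complex.normSq_apply] at h1
    nlinarith
  set l : ℝ := ((deriv Γ t).re * ((Γ s).re - (Γ t).re) + (deriv Γ t).im * ((Γ s).im - (Γ t).im)) /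
    ((deriv Γ t).re ^ 2 + (deriv Γ t).im ^ 2) with hl
  have hmul : Γ s - Γ t = l • deriv Γ t := by
    unfold crossD at h0
    apply Complex.ext
    · simp only [Complex.sub_re, Complex.real_smul, Complex.mul_re, Complex.ofReal_re,
        Complex.ofReal_im, zero_mul, sub_zero]
      rw [hl, div_mul_eq_mul_div, eq_div_iff hsq.ne']
      linear_combination -(deriv Γ t).im * h0
    · simp only [Complex.sub_im, Complex.real_smul, Complex.mul_im, Complex.ofReal_re,
        Complex.ofReal_im, zero_mul, add_zero]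
      rw [hl, div_mul_eq_mul_div, eq_div_iff hsq.ne']
      linear_combination (deriv Γ t).re * h0
  have h3 : f (Γ s) - f (Γ t) = 0 := by
    rw [← map_sub, hmul, map_smul, hder, smul_zero]
  linarith

theorem crossD_cont {Γ : ℝ → ℂ} (h : ContDiff ℝ 2 Γ) :
    Continuous (fun p : ℝ × ℝ => crossD Γ p.1 p.2) := by
  have h0 : Continuous Γ := h.continuous
  have h1 : Continuous (deriv Γ) := h.continuous_deriv (by norm_num)
  unfold crossD
  fun_prop

/-- the cross product has a constant sign -/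
theorem crossD_sign {Γ : ℝ → ℂ} {T : ℝ} (h : ContDiff ℝ 2 Γ)
    (hne : ∀ t s, t < s → s < t + T → crossD Γ t s ≠ 0) :
    (∀ t s, t < s → s < t + T → 0 < crossD Γ t s) ∨
      (∀ t s, t < s → s < t + T → crossD Γ t s < 0) := by
  set U : Set (ℝ × ℝ) := {p | p.1 < p.2 ∧ p.2 < p.1 + T} with hU
  have hUc : IsPreconnected U := by
    apply Convex.isPreconnected (E := ℝ × ℝ)
    rintro ⟨x, y⟩ ⟨h1, h2⟩ ⟨x', y'⟩ ⟨h3, h4⟩ a b ha hb hab
    simp only at h1 h2 h3 h4
    simp only [hU, Prod.smul_mk, Prod.mk_add_mk, smul_eq_mul, mem_ofPred_eq]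
    rcases eq_or_lt_of_le ha with ha' | ha'
    · have hb1 : b = 1 := by rw [← ha'] at hab; linarith
      subst hb1
      rw [← ha']
      constructor <;> linarith
    · have e1 := mul_lt_mul_of_pos_left h1 ha'
      have e2 := mul_lt_mul_of_pos_left h2 ha'
      have e3 := mul_le_mul_of_nonneg_left h3.le hb
      have e4 := mul_le_mul_of_nonneg_left h4.le hb
      have e5 : a * T + b * T = T := by rw [← add_mul, hab, one_mul]
      constructor <;> linarith
  by_contra hcon
  push Not at hcon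
  obtain ⟨⟨t, s, h1, h2, h3⟩, t', s', h4, h5, h6⟩ := hcon
  obtain ⟨p, hp, h7⟩ := hUc.intermediate_value (a := (t, s)) (b := (t', s')) ⟨h1, h2⟩ ⟨h4, h5⟩
    (crossD_cont h).continuousOn (show (0 : ℝ) ∈ Icc _ _ from ⟨h3, h6⟩)
  exact hne p.1 p.2 hp.1 hp.2 h7

/-- the lift of the tangent direction -/
theorem exists_lift {g g' : ℝ → ℂ} (hg : ∀ t, HasDerivAt g (g' t) t) (hc : Continuous g')
    (hne : ∀ t, g t ≠ 0) : ∃ φ : ℝ → ℝ, (∀ t, HasDerivAt φ (g' t / g t).im t) ∧
      ∀ t, (g t).re = ‖g t‖ * cos (φ t) ∧ (g t).im = ‖g t‖ * sin (φ t) := by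
  have hgc : Continuous g := continuous_iff_continuousAt.2 fun t => (hg t).continuousAt
  have hw : Continuous (fun t => g' t / g t) := hc.div hgc hne
  set L : ℝ → ℂ := fun t => Complex.log (g 0) + ∫ x in (0 : ℝ)..t, g' x / g x with hL
  have hLd : ∀ t, HasDerivAt L (g' t / g t) t := fun t =>
    (intervalIntegral.integral_hasDerivAt_right (hw.intervalIntegrable _ _)
      (hw.stronglyMeasurableAtFilter _ _) hw.continuousAt).const_add _
  have hconst : ∀ t, g t * Complex.exp (-L t) = 1 := by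
    have hd : ∀ t, HasDerivAt (fun t => g t * Complex.exp (-L t)) 0 t := by
      intro t
      have h1 : HasDerivAt (fun t => Complex.exp (-L t)) (Complex.exp (-L t) * (-(g' t / g t))) t :=
        ((Complex.hasDerivAt_exp (-L t)).comp_of_eq t (hLd t).neg rfl)
      refine ((hg t).mul h1).congr_deriv ?_
      have := hne t
      field_simp
      ring
    intro t
    have h2 := is_const_of_deriv_eq_zero (fun t => (hd t).differentiableAt)
      (fun t => (hd t).deriv) t 0
    rw [h2]
    simp only [hL, intervalIntegral.integral_same, add_zero]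
    rw [Complex.exp_neg, Complex.exp_log (hne 0), mul_inv_cancel₀ (hne 0)]
  have hexp : ∀ t, g t = Complex.exp (L t) := by
    intro t
    have := hconst t
    rw [Complex.exp_neg] at this
    have h3 := Complex.exp_ne_zero (L t)
    field_simp at this
    exact this
  refine ⟨fun t => (L t).im, fun t => ?_, fun t => ?_⟩
  · exact Complex.imCLM.hasFDerivAt.comp_hasDerivAt t (hLd t)
  · rw [hexp t, Complex.norm_exp]
    exact ⟨Complex.exp_re _, Complex.exp_im _⟩

theorem crossD_hasDerivAt {Γ : ℝ → ℂ} (h : Differentiable ℝ Γ) (t s : ℝ) :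
    HasDerivAt (fun s => crossD Γ t s)
      ((deriv Γ t).re * (deriv Γ s).im - (deriv Γ t).im * (deriv Γ s).re) s := by
  have h1 : HasDerivAt (fun s => (Γ s).re) (deriv Γ s).re s :=
    Complex.reCLM.hasFDerivAt.comp_hasDerivAt s (h s).hasDerivAt
  have h2 : HasDerivAt (fun s => (Γ s).im) (deriv Γ s).im s :=
    Complex.imCLM.hasFDerivAt.comp_hasDerivAt s (h s).hasDerivAt
  exact ((h2.sub_const _).const_mul _).sub ((h1.sub_const _).const_mul _)

theorem crossD_self (Γ : ℝ → ℂ) (t : ℝ) : crossD Γ t t = 0 := by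
  simp [crossD]

theorem exists_bound {f : ℝ → ℝ} {T : ℝ} (hT : 0 < T) (hf : Continuous f)
    (hp : ∀ t, f (t + T) = f t) : ∃ C : ℝ, ∀ t, f t ≤ C := by
  have h1 : Function.Periodic f T := hp
  have h2 := h1.isBounded_of_continuous hT.ne' hf
  obtain ⟨C, hC⟩ := isBounded_iff_forall_norm_le.1 h2
  refine ⟨C, fun t => ?_⟩
  have := hC (f t) (mem_range_self t)
  exact (le_abs_self _).trans this

theorem deriv_periodic {g : ℝ → ℂ} {T : ℝ} (hp : ∀ t, g (t + T) = g t) (t : ℝ) :
    deriv g (t + T) = deriv g t := by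
  have h1 : deriv (fun t => g (t + T)) t = deriv g (t + T) := deriv_comp_add_const g T t
  rw [← h1]
  congr 1
  funext t
  exact hp t

/-- polar data of a positively oriented convex curve -/
theorem exists_polar {Γ : ℝ → ℂ} {T : ℝ} (hT : 0 < T) (h : ContDiff ℝ 2 Γ)
    (hd : ∀ t, deriv Γ t ≠ 0) (hper : ∀ t, Γ (t + T) = Γ t)
    (hD : ∀ t s, t < s → s < t + T → 0 < crossD Γ t s) :
    ∃ v φ κ : ℝ → ℝ, ∃ C : ℝ, Polar v φ κ T C ∧ (∀ t, (deriv Γ t).re = v t * cos (φ t)) ∧
      (∀ t, (deriv Γ t).im = v t * sin (φ t)) := by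
  have hπ := Real.pi_pos
  have hdiff : Differentiable ℝ Γ := h.differentiable (by norm_num)
  have h1 : ContDiff ℝ 1 (deriv Γ) := by
    have h12 : ContDiff ℝ (1 + 1) Γ := by rw [one_add_one_eq_two]; exact h
    exact (contDiff_succ_iff_deriv.1 h12).2.2
  have hgd : ∀ t, HasDerivAt (deriv Γ) (deriv (deriv Γ) t) t := fun t =>
    ((h1.differentiable (by norm_num)) t).hasDerivAt
  have hgc : Continuous (deriv (deriv Γ)) := h1.continuous_deriv (by norm_num)
  have hgc1 : Continuous (deriv Γ) := h1.continuous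
  obtain ⟨φ, hφd, hφ⟩ := exists_lift hgd hgc hd
  set v : ℝ → ℝ := fun t => ‖deriv Γ t‖ with hv
  set κ : ℝ → ℝ := fun t => (deriv (deriv Γ) t / deriv Γ t).im with hκ
  have hvpos : ∀ t, 0 < v t := fun t => norm_pos_iff.2 (hd t)
  have hre : ∀ t, (deriv Γ t).re = v t * cos (φ t) := fun t => (hφ t).1
  have him : ∀ t, (deriv Γ t).im = v t * sin (φ t) := fun t => (hφ t).2
  have hvc : Continuous v := hgc1.norm
  have hκc : Continuous κ := Complex.continuous_im.comp (hgc.div hgc1 hd)
  have hgp : ∀ t, deriv Γ (t + T) = deriv Γ t := deriv_periodic hper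
  have hgp' : ∀ t, deriv (deriv Γ) (t + T) = deriv (deriv Γ) t := deriv_periodic hgp
  have hvp : ∀ t, v (t + T) = v t := fun t => by simp only [hv]; rw [hgp]
  have hκp : ∀ t, κ (t + T) = κ t := fun t => by simp only [hκ]; rw [hgp, hgp']
  have hφc : Continuous φ := continuous_iff_continuousAt.2 fun t => (hφd t).continuousAt
  -- the derivative of the cross product
  have hDd : ∀ t s, HasDerivAt (fun s => crossD Γ t s) (v t * v s * sin (φ s - φ t)) s := by
    intro t s
    refine (crossD_hasDerivAt hdiff t s).congr_deriv ?_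
    rw [hre, hre, him, him, Real.sin_sub]
    ring
  -- nonnegative curvature
  have hκ0 : ∀ t, 0 ≤ κ t := by
    intro t
    by_contra hcon
    push Not at hcon
    have e1 : ∀ᶠ s in nhdsWithin t (Ioi t), slope φ t s < 0 := by
      have := (hasDerivAt_iff_tendsto_slope.1 (hφd t)).mono_left
        (nhdsWithin_mono t (show Ioi t ⊆ {t}ᶜ from fun x hx => ne_of_gt hx))
      exact this.eventually (gt_mem_nhds hcon)
    have e2 : ∀ᶠ s in nhdsWithin t (Ioi t), φ t - π < φ s :=
      (hφc.continuousAt.mono_left nhdsWithin_le_nhds).eventually (lt_mem_nhds (by linarith))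
    have e3 : ∀ᶠ s in nhdsWithin t (Ioi t), s < t + T :=
      nhdsWithin_le_nhds (gt_mem_nhds (by linarith))
    have e4 := e1.and (e2.and e3)
    obtain ⟨u, hu, hsub⟩ := mem_nhdsGT_iff_exists_Ioo_subset.1 e4
    rw [mem_Ioi] at hu
    have hm : t < (t + u) / 2 ∧ (t + u) / 2 < u := ⟨by linarith, by linarith⟩
    have hneg : ∀ s ∈ Ioo t u, sin (φ s - φ t) < 0 := by
      intro s hs
      obtain ⟨f1, f2, f3⟩ := hsub hs
      rw [slope_def_field, div_neg_iff] at f1
      rcases f1 with ⟨_, f1⟩ | ⟨f1, _⟩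
      · linarith [hs.1]
      · exact Real.sin_neg_of_neg_of_neg_pi_lt f1 (by linarith)
    have := lt_of_hasDerivAt (f := fun s => - crossD Γ t s) hm.1
      (fun s _ => (hDd t s).neg) fun s hs => ?_
    · rw [crossD_self] at this
      have h5 := hD t ((t + u) / 2) hm.1 (hsub ⟨hm.1, hm.2⟩).2.2
      linarith
    · have h6 := hneg s ⟨hs.1, hs.2.trans hm.2⟩
      have h7 := mul_pos (hvpos t) (hvpos s)
      nlinarith
  have hmono : ∀ a b, a ≤ b → φ a ≤ φ b := fun a b hab =>
    le_of_hasDerivAt hab (fun t _ => hφd t) fun t _ => hκ0 t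
  have hstrict : StrictMono φ := by
    intro a b hab
    rcases lt_or_eq_of_le (hmono a b hab.le) with h5 | h5
    · exact h5
    exfalso
    have hc : a < min b (a + T / 2) := lt_min hab (by linarith)
    have hcb : min b (a + T / 2) ≤ b := min_le_left _ _
    have hcT : min b (a + T / 2) < a + T := lt_of_le_of_lt (min_le_right _ _) (by linarith)
    have := le_of_hasDerivAt (f := fun s => - crossD Γ a s) hc.le
      (fun s _ => (hDd a s).neg) fun s hs => ?_
    · rw [crossD_self] at this
      have h6 := hD a _ hc hcT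
      linarith
    · have h7 : φ s = φ a := le_antisymm
        ((hmono s b (hs.2.le.trans hcb)).trans h5.ge) (hmono a s hs.1.le)
      rw [h7, sub_self, Real.sin_zero]
      simp
  -- the rotation index
  obtain ⟨m, hm⟩ : ∃ m : ℤ, m * (2 * π) = φ T - φ 0 := by
    rw [← Real.cos_eq_one_iff]
    have h5 := hre (0 + T)
    have h6 := him (0 + T)
    rw [hgp, hvp, hre] at h5
    rw [hgp, hvp, him] at h6
    have h7 := mul_left_cancel₀ (hvpos 0).ne' h5
    have h8 := mul_left_cancel₀ (hvpos 0).ne' h6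
    rw [zero_add] at h7 h8
    rw [Real.cos_sub, ← h7, ← h8]
    have := Real.sin_sq_add_cos_sq (φ 0)
    nlinarith
  have hall : ∀ t, φ (t + T) - φ t = m * (2 * π) := by
    have hd0 : ∀ t, HasDerivAt (fun t => φ (t + T) - φ t) 0 t := by
      intro t
      have h5 : HasDerivAt (fun t => φ (t + T)) (κ (t + T)) t := (hφd (t + T)).comp_add_const t T
      refine (h5.sub (hφd t)).congr_deriv ?_
      show κ (t + T) - κ t = 0
      rw [hκp, sub_self]
    intro t
    have := is_const_of_deriv_eq_zero (fun t => (hd0 t).differentiableAt)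
      (fun t => (hd0 t).deriv) t 0
    rw [this, zero_add, hm]
  have hm1 : 1 ≤ m := by
    by_contra hcon
    have h5 : m ≤ 0 := by omega
    have h6 : (m : ℝ) ≤ 0 := by exact_mod_cast h5
    have h7 := hstrict hT
    nlinarith
  have hm2 : m ≤ 1 := by
    by_contra hcon
    have h5 : 2 ≤ m := by omega
    have h6 : (2 : ℝ) ≤ m := by exact_mod_cast h5
    have h7 : φ 0 + 2 * π < φ T := by nlinarith
    obtain ⟨s, hs, hs'⟩ := intermediate_value_Ioo hT.le hφc.continuousOn
      (show φ 0 + 2 * π ∈ Ioo (φ 0) (φ T) from ⟨by linarith, h7⟩)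
    have h8 := hD 0 s hs.1 (by linarith [hs.2])
    have h9 := hD s T hs.2 (by linarith [hs.1])
    have h10 : Γ T = Γ 0 := by have := hper 0; rwa [zero_add] at this
    unfold crossD at h8 h9
    rw [h10, hre, him, hs', Real.cos_add_two_pi, Real.sin_add_two_pi] at h9
    rw [hre, him] at h8
    have h11 := mul_pos (hvpos s) h8
    have h12 := mul_pos (hvpos 0) h9
    nlinarith
  have hm3 : m = 1 := le_antisymm hm2 hm1
  obtain ⟨C₁, hC₁⟩ := exists_bound hT hvc hvp
  obtain ⟨C₂, hC₂⟩ := exists_bound hT (f := fun t => κ t / v t)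
    (hκc.div hvc fun t => (hvpos t).ne') fun t => by rw [hκp, hvp]
  refine ⟨v, φ, κ, max 1 (max C₁ C₂), ⟨hT, lt_of_lt_of_le one_pos (le_max_left _ _), hvpos,
    fun t => (hC₁ t).trans ((le_max_left _ _).trans (le_max_right _ _)), hvc, hφd, hκ0,
    fun t => ?_, hstrict, fun t => ?_, hvp⟩, hre, him⟩
  · have h5 := hC₂ t
    rw [div_le_iff₀ (hvpos t)] at h5
    refine h5.trans (mul_le_mul_of_nonneg_right ?_ (hvpos t).le)
    exact (le_max_right _ _).trans (le_max_right _ _)
  · have h5 := hall t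
    rw [hm3] at h5
    push_cast at h5
    linarith

end Pool.Agent.Helper98K9.Bike
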