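import Mathlib
import Pool.Agent.Helper98K9.Bike.Geom

/-!
The transition theorem, first for positively oriented convex curves and then in general.
-/

open Set Real

namespace Pool.Agent.Helper98K9.Bike

/-- the equation of the bike -/
def BRide (Γ : ℝ → ℂ) (l : ℝ) (θ : ℝ → ℝ) : Prop :=
  ∀ t, HasDerivAt θ (((deriv Γ t).im * cos (θ t) - (deriv Γ t).re * sin (θ t)) / l) t

/-- `M` represents the monodromy, with positive factors -/
def Repr (Γ : ℝ → ℂ) (T l : ℝ) (M : Matrix (Fin 2) (Fin 2) ℝ) : Prop :=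
  ∀ θ, BRide Γ l θ → ∃ r : ℝ, 0 < r ∧ M.mulVec (dirVec (θ 0)) = r • dirVec (θ T)

theorem ride_iff {Γ : ℝ → ℂ} {v φ : ℝ → ℝ} (hre : ∀ t, (deriv Γ t).re = v t * cos (φ t))
    (him : ∀ t, (deriv Γ t).im = v t * sin (φ t)) (l : ℝ) (θ : ℝ → ℝ) :
    BRide Γ l θ ↔ Ride v φ (1 / l) θ := by
  have : ∀ t, ((deriv Γ t).im * cos (θ t) - (deriv Γ t).re * sin (θ t)) / l =
      1 / l * v t * sin (φ t - θ t) := by
    intro t
    rw [hre, him, Real.sin_sub]
    ring
  unfold BRide Ride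
  simp only [this]

theorem transition_pos {Γ : ℝ → ℂ} {T : ℝ} (hT : 0 < T) (h : ContDiff ℝ 2 Γ)
    (hd : ∀ t, deriv Γ t ≠ 0) (hper : ∀ t, Γ (t + T) = Γ t)
    (hD : ∀ t s, t < s → s < t + T → 0 < crossD Γ t s) :
    (∀ l : ℝ, 0 < l → (∀ x, ∃ θ, BRide Γ l θ ∧ θ 0 = x) ∧
      ∃ M : Matrix (Fin 2) (Fin 2) ℝ, M.det = 1 ∧ Repr Γ T l M) ∧
    ∃ l₀ : ℝ, 0 < l₀ ∧
      (∀ l, 0 < l → l < l₀ → ∀ M : Matrix (Fin 2) (Fin 2) ℝ, M.det = 1 → Repr Γ T l M →
        2 < |M.trace|) ∧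
      (∀ l, l₀ < l → ∀ M : Matrix (Fin 2) (Fin 2) ℝ, M.det = 1 → Repr Γ T l M →
        |M.trace| < 2) := by
  obtain ⟨v, φ, κ, C, P, hre, him⟩ := exists_polar hT h hd hper hD
  have hiff := ride_iff hre him
  have hdiff : Differentiable ℝ Γ := h.differentiable (by norm_num)
  have hX : ∀ t, HasDerivAt (fun t => (Γ t).re) (v t * cos (φ t)) t := by
    intro t
    rw [← hre]
    exact Complex.reCLM.hasFDerivAt.comp_hasDerivAt t (hdiff t).hasDerivAt
  have hY : ∀ t, HasDerivAt (fun t => (Γ t).im) (v t * sin (φ t)) t := by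
    intro t
    rw [← him]
    exact Complex.imCLM.hasFDerivAt.comp_hasDerivAt t (hdiff t).hasDerivAt
  have hXT : ∀ t, (Γ (t + T)).re = (Γ t).re := fun t => by rw [hper]
  have hYT : ∀ t, (Γ (t + T)).im = (Γ t).im := fun t => by rw [hper]
  constructor
  · intro l hl
    have hl' : 0 < 1 / l := by positivity
    constructor
    · intro x
      obtain ⟨θ, h1, h2⟩ := exists_ride P hl' x
      exact ⟨θ, (hiff l θ).2 h1, h2⟩
    · obtain ⟨M, h1, h2⟩ := exists_matrix P hl'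
      exact ⟨M, h1, fun θ hθ => h2 θ ((hiff l θ).1 hθ)⟩
  · set S : Set ℝ := {ε | 0 < ε ∧ PBig v φ T ε} with hS
    have hSne : S.Nonempty := ⟨C, P.Cpos, pbig_of_large P le_rfl⟩
    have hCT : 0 < C * T := mul_pos P.Cpos P.pos
    have hlow : ∀ ε ∈ S, 2 * π / (C * T) ≤ ε := by
      rintro ε ⟨h1, h2⟩
      by_contra hcon
      push Not at hcon
      rw [lt_div_iff₀ hCT] at hcon
      exact not_pbig_small P h1 (by linarith) h2
    have hbdd : BddBelow S := ⟨_, hlow⟩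
    have h0 : 0 < sInf S := lt_of_lt_of_le (by positivity) (le_csInf hSne hlow)
    refine ⟨1 / sInf S, by positivity, ?_, ?_⟩
    · intro l hl hlt M hdet hM
      have hl' : 0 < 1 / l := by positivity
      have hlt' : sInf S < 1 / l := by
        rw [lt_div_iff₀ h0] at hlt
        rw [lt_div_iff₀ hl]; linarith
      obtain ⟨ε, hε, hε'⟩ := exists_lt_of_csInf_lt hSne hlt'
      exact hyperbolic_of_pbig P hε.1 hε' hε.2 hdet fun θ hθ => hM θ ((hiff l θ).2 hθ)
    · intro l hlt M hdet hM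
      have hl : 0 < l := lt_trans (by positivity) hlt
      have hl' : 0 < 1 / l := by positivity
      have hlt' : 1 / l < sInf S := by
        rw [div_lt_iff₀ h0] at hlt
        rw [div_lt_iff₀ hl]; linarith
      have hnb : ¬ PBig v φ T (1 / l) := fun hb => not_lt_of_ge (csInf_le hbdd ⟨hl', hb⟩) hlt'
      exact elliptic_of_not_pbig P hl' hX hY hXT hYT hnb hdet
        fun θ hθ => hM θ ((hiff l θ).2 hθ)

/-- the matrix of the reflection -/
def refl2 (M : Matrix (Fin 2) (Fin 2) ℝ) : Matrix (Fin 2) (Fin 2) ℝ :=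
  !![M 0 0, -M 0 1; -M 1 0, M 1 1]

theorem refl2_det (M : Matrix (Fin 2) (Fin 2) ℝ) : (refl2 M).det = M.det := by
  simp [refl2, Matrix.det_fin_two]

theorem refl2_trace (M : Matrix (Fin 2) (Fin 2) ℝ) : (refl2 M).trace = M.trace := by
  simp [refl2, Matrix.trace_fin_two]

theorem refl2_refl2 (M : Matrix (Fin 2) (Fin 2) ℝ) : refl2 (refl2 M) = M := by
  ext i j
  fin_cases i <;> fin_cases j <;> simp [refl2]

theorem refl2_mulVec {M : Matrix (Fin 2) (Fin 2) ℝ} {x y r : ℝ}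
    (h : M.mulVec (dirVec x) = r • dirVec y) :
    (refl2 M).mulVec (dirVec (-x)) = r • dirVec (-y) := by
  have h0 := congrFun h 0
  have h1 := congrFun h 1
  simp [dirVec, Matrix.mulVec, dotProduct, Fin.sum_univ_two] at h0 h1
  ext i
  fin_cases i
  · simp [dirVec, refl2, Matrix.mulVec, dotProduct, Fin.sum_univ_two, neg_div]
    linarith
  · simp [dirVec, refl2, Matrix.mulVec, dotProduct, Fin.sum_univ_two, neg_div]
    linarith

theorem conj_deriv {Γ : ℝ → ℂ} (h : Differentiable ℝ Γ) (t : ℝ) :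
    HasDerivAt (fun t => (starRingEnd ℂ) (Γ t)) ((starRingEnd ℂ) (deriv Γ t)) t :=
  Complex.conjCLE.toContinuousLinearMap.hasFDerivAt.comp_hasDerivAt t (h t).hasDerivAt

theorem bride_conj {Γ : ℝ → ℂ} (h : Differentiable ℝ Γ) {l : ℝ} {θ : ℝ → ℝ}
    (hθ : BRide Γ l θ) : BRide (fun t => (starRingEnd ℂ) (Γ t)) l (fun t => -θ t) := by
  intro t
  refine (hθ t).neg.congr_deriv ?_
  rw [(conj_deriv h t).deriv, Complex.conj_re, Complex.conj_im, Real.cos_neg, Real.sin_neg]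
  ring

theorem repr_conj {Γ : ℝ → ℂ} (h : Differentiable ℝ Γ) {T l : ℝ}
    {M : Matrix (Fin 2) (Fin 2) ℝ} (hM : Repr Γ T l M) :
    Repr (fun t => (starRingEnd ℂ) (Γ t)) T l (refl2 M) := by
  intro θ hθ
  have hc : Differentiable ℝ (fun t => (starRingEnd ℂ) (Γ t)) := fun t =>
    (conj_deriv h t).differentiableAt
  have h1 := bride_conj hc hθ
  simp only [Complex.conj_conj] at h1
  obtain ⟨r, hr, e⟩ := hM _ h1
  refine ⟨r, hr, ?_⟩
  have := refl2_mulVec e
  simpa using this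

theorem transition_neg {Γ : ℝ → ℂ} {T : ℝ} (hT : 0 < T) (h : ContDiff ℝ 2 Γ)
    (hd : ∀ t, deriv Γ t ≠ 0) (hper : ∀ t, Γ (t + T) = Γ t)
    (hD : ∀ t s, t < s → s < t + T → crossD Γ t s < 0) :
    (∀ l : ℝ, 0 < l → (∀ x, ∃ θ, BRide Γ l θ ∧ θ 0 = x) ∧
      ∃ M : Matrix (Fin 2) (Fin 2) ℝ, M.det = 1 ∧ Repr Γ T l M) ∧
    ∃ l₀ : ℝ, 0 < l₀ ∧
      (∀ l, 0 < l → l < l₀ → ∀ M : Matrix (Fin 2) (Fin 2) ℝ, M.det = 1 → Repr Γ T l M →
        2 < |M.trace|) ∧
      (∀ l, l₀ < l → ∀ M : Matrix (Fin 2) (Fin 2) ℝ, M.det = 1 → Repr Γ T l M →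
        |M.trace| < 2) := by
  have hdiff : Differentiable ℝ Γ := h.differentiable (by norm_num)
  set Γ' : ℝ → ℂ := fun t => (starRingEnd ℂ) (Γ t) with hΓ'
  have hder : ∀ t, deriv Γ' t = (starRingEnd ℂ) (deriv Γ t) := fun t => (conj_deriv hdiff t).deriv
  have hback : (fun t => (starRingEnd ℂ) (Γ' t)) = Γ := by
    funext t
    simp [hΓ']
  have hdiff' : Differentiable ℝ Γ' := fun t => (conj_deriv hdiff t).differentiableAt
  have key := transition_pos (Γ := Γ') hT (Complex.conjCLE.contDiff.comp h)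
    (fun t => by rw [hder]; simpa using hd t) (fun t => by simp only [hΓ']; rw [hper])
    (fun t s h1 h2 => by
      have := hD t s h1 h2
      unfold crossD at this ⊢
      rw [hder]
      simp only [hΓ', Complex.conj_re, Complex.conj_im]
      linarith)
  obtain ⟨k1, l₀, hl₀, k2, k3⟩ := key
  refine ⟨fun l hl => ?_, l₀, hl₀, fun l hl hlt M hdet hM => ?_, fun l hlt M hdet hM => ?_⟩
  · obtain ⟨a1, M, a2, a3⟩ := k1 l hl
    constructor
    · intro x
      obtain ⟨θ, b1, b2⟩ := a1 (-x)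
      have b3 := bride_conj hdiff' b1
      rw [hback] at b3
      exact ⟨_, b3, by simp [b2]⟩
    · refine ⟨refl2 M, by rw [refl2_det, a2], ?_⟩
      have b3 := repr_conj hdiff' a3
      rwa [hback] at b3
  · rw [← refl2_trace]
    exact k2 l hl hlt _ (by rw [refl2_det, hdet]) (repr_conj hdiff hM)
  · rw [← refl2_trace]
    exact k3 l hlt _ (by rw [refl2_det, hdet]) (repr_conj hdiff hM)

/-- the transition theorem -/
theorem transition {Γ : ℝ → ℂ} {T : ℝ} (hT : 0 < T) (h : ContDiff ℝ 2 Γ)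
    (hd : ∀ t, deriv Γ t ≠ 0) (hper : ∀ t, Γ (t + T) = Γ t) (hinj : InjOn Γ (Ico 0 T))
    {K : Set ℂ} (hK : IsClosed K) (hc : StrictConvex ℝ K) (hi : (interior K).Nonempty)
    (hf : frontier K = range Γ) :
    (∀ l : ℝ, 0 < l → (∀ x, ∃ θ, BRide Γ l θ ∧ θ 0 = x) ∧
      ∃ M : Matrix (Fin 2) (Fin 2) ℝ, M.det = 1 ∧ Repr Γ T l M) ∧
    ∃ l₀ : ℝ, 0 < l₀ ∧
      (∀ l, 0 < l → l < l₀ → ∀ M : Matrix (Fin 2) (Fin 2) ℝ, M.det = 1 → Repr Γ T l M →
        2 < |M.trace|) ∧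
      (∀ l, l₀ < l → ∀ M : Matrix (Fin 2) (Fin 2) ℝ, M.det = 1 → Repr Γ T l M →
        |M.trace| < 2) := by
  have hdiff : Differentiable ℝ Γ := h.differentiable (by norm_num)
  have hp : Function.Periodic Γ T := hper
  have hne : ∀ t s, t < s → s < t + T → crossD Γ t s ≠ 0 := by
    intro t s h1 h2
    refine crossD_ne hd hdiff hK hc hi hf fun heq => ?_
    -- reduce both times to `[0, T)`
    have e1 : Γ (toIcoMod hT 0 t) = Γ t := by
      rw [toIcoMod, hp.sub_zsmul_eq]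
    have e2 : Γ (toIcoMod hT 0 s) = Γ s := by
      rw [toIcoMod, hp.sub_zsmul_eq]
    have m1 := toIcoMod_mem_Ico hT 0 t
    have m2 := toIcoMod_mem_Ico hT 0 s
    rw [zero_add] at m1 m2
    have e3 := hinj m1 m2 (by rw [e1, e2, heq])
    have e4 : t - toIcoDiv hT 0 t • T = s - toIcoDiv hT 0 s • T := e3
    rw [zsmul_eq_mul, zsmul_eq_mul] at e4
    have e5 : s - t = ((toIcoDiv hT 0 s - toIcoDiv hT 0 t : ℤ) : ℝ) * T := by
      push_cast; linarith
    have e6 : 0 < toIcoDiv hT 0 s - toIcoDiv hT 0 t := by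
      by_contra hcon
      push Not at hcon
      have : ((toIcoDiv hT 0 s - toIcoDiv hT 0 t : ℤ) : ℝ) ≤ 0 := by exact_mod_cast hcon
      nlinarith
    have e7 : (1 : ℝ) ≤ ((toIcoDiv hT 0 s - toIcoDiv hT 0 t : ℤ) : ℝ) := by exact_mod_cast e6
    nlinarith
  rcases crossD_sign h hne with hD | hD
  · exact transition_pos hT h hd hper hD
  · exact transition_neg hT h hd hper hD

/-- uniqueness of the matrix up to sign -/
theorem repr_unique {Γ : ℝ → ℂ} {T l : ℝ} (hex : ∀ x, ∃ θ, BRide Γ l θ ∧ θ 0 = x)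
    {M M' : Matrix (Fin 2) (Fin 2) ℝ} (hdet : M.det = 1) (hdet' : M'.det = 1)
    (hM : Repr Γ T l M)
    (hM' : ∀ θ, BRide Γ l θ → ∃ r : ℝ, r ≠ 0 ∧ M'.mulVec (dirVec (θ 0)) = r • dirVec (θ T)) :
    M' = M ∨ M' = -M := by
  have key : ∀ x, (M 0 0 * cos (x / 2) + M 0 1 * sin (x / 2)) *
      (M' 1 0 * cos (x / 2) + M' 1 1 * sin (x / 2)) =
      (M 1 0 * cos (x / 2) + M 1 1 * sin (x / 2)) *
      (M' 0 0 * cos (x / 2) + M' 0 1 * sin (x / 2)) := by
    intro x
    obtain ⟨θ, h1, h2⟩ := hex x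
    obtain ⟨r, _, e⟩ := hM θ h1
    obtain ⟨r', _, e'⟩ := hM' θ h1
    have h3 := congrFun e 0
    have h4 := congrFun e 1
    have h5 := congrFun e' 0
    have h6 := congrFun e' 1
    simp [dirVec, Matrix.mulVec, dotProduct, Fin.sum_univ_two, h2] at h3 h4 h5 h6
    rw [h3, h4, h5, h6]
    ring
  have k0 := key 0
  have k1 := key π
  have k2 := key (π / 2)
  rw [show π / 2 / 2 = π / 4 by ring, Real.cos_pi_div_four, Real.sin_pi_div_four] at k2
  simp only [zero_div, Real.cos_zero, Real.sin_zero, mul_one, mul_zero, add_zero] at k0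
  simp only [Real.cos_pi_div_two, Real.sin_pi_div_two, mul_one, mul_zero, zero_add] at k1
  have hs : √2 * √2 = 2 := Real.mul_self_sqrt (by norm_num)
  have k3 : (M 0 0 + M 0 1) * (M' 1 0 + M' 1 1) = (M 1 0 + M 1 1) * (M' 0 0 + M' 0 1) := by
    nlinarith
  rw [Matrix.det_fin_two] at hdet hdet'
  set q : ℝ := M 0 0 * M' 1 1 - M 1 0 * M' 0 1 with hq
  have hq' : q = M 1 1 * M' 0 0 - M 0 1 * M' 1 0 := by
    rw [hq]; linarith
  have f00 : M' 0 0 = q * M 0 0 := by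
    rw [hq']
    linear_combination (-(M' 0 0)) * hdet + (M 0 1) * k0
  have f10 : M' 1 0 = q * M 1 0 := by
    rw [hq']
    linear_combination (-(M' 1 0)) * hdet + (M 1 1) * k0
  have f01 : M' 0 1 = q * M 0 1 := by
    rw [hq]
    linear_combination (-(M' 0 1)) * hdet - (M 0 0) * k1
  have f11 : M' 1 1 = q * M 1 1 := by
    rw [hq]
    linear_combination (-(M' 1 1)) * hdet - (M 1 0) * k1
  have hq2 : q * q = 1 := by
    have : q * q * (M 0 0 * M 1 1 - M 0 1 * M 1 0) = 1 := by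
      rw [← hdet', f00, f11, f01, f10]; ring
    rw [hdet, mul_one] at this
    exact this
  rcases mul_self_eq_one_iff.1 hq2 with h1 | h1
  · left
    ext i j
    fin_cases i <;> fin_cases j <;> simp [f00, f01, f10, f11, h1]
  · right
    ext i j
    fin_cases i <;> fin_cases j <;> simp [f00, f01, f10, f11, h1]

end Pool.Agent.Helper98K9.Bike
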